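import Pool.Agent.Helper69.CR.St

/-!
# MP_3dd6d4_an, project CP (critical mode, `p > 4`): the static part

Numbers used by the doubling argument of `/team-store/MP_3dd6d4-helper85-PHI.md`:
`‖B_n‖_p² ≤ λ_{p/2} C_n(1/p)² + K2 n ^ (1-2/p)` for `n ≥ 7`, where
`K2 n = ∫_0^1 (1 + ∫_s^1 |p_n(t)| dt/t)² ds`.

Notation of `Helper69.CR.St`: `pp n t = p_n(t)`, `LL j t` shifted Legendre, `Cn n a = ∏_{k<n} (k+1-a)/(k+a)`.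
Constants of the recursion: `ee a = 13/100 a - 2/5 a² - 7/15 a³`, `a = 1/p`, `λ_p ≤ 1 + ee (1/p)`, loss
`c(p)/p²` with `c(p) ≤ 4/5 + 14/5 (1/p)` for `p ≥ 8`.

Every module `M_XX.lean` in `Pool/Agent/Helper85/CP/` proves `theorem hXX : StXX` (from the `StYY` named in its
row, as hypotheses).
-/

set_option autoImplicit false

open MeasureTheory Set Filter Topology

noncomputable section

namespace Helper85.CP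

open Helper69.CR

/-- `F_n(s) = ∫_s^1 |p_n(t)| dt/t`. -/
def FF (n : ℕ) (s : ℝ) : ℝ := ∫ t in s..1, |pp n t| / t

/-- `K_n²`. -/
def K2 (n : ℕ) : ℝ := ∫ s in (0 : ℝ)..1, (1 + FF n s) ^ 2

/-- the excess function. -/
def ee (a : ℝ) : ℝ := 13 / 100 * a - 2 / 5 * a ^ 2 - 7 / 15 * a ^ 3

/-- MODULE KE (120 lines). The exponential form of `K2`.
Proof: substitute `s = e^{-τ}`, `t = e^{-u}`: `FF n (e^{-τ}) = ∫_0^τ |pp n (e^{-u})| du`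
(`intervalIntegral.integral_comp_mul_deriv''` or `integral_comp_smul_deriv''`; everything is continuous on
`[e^{-τ},1]`), and `∫_{Ioi 0} e^{-τ} g(e^{-τ}) dτ = ∫_0^1 g` (`MeasureTheory.integrableOn_image_iff_integrableOn_abs_deriv_smul`,
`integral_image_eq_integral_abs_deriv_smul` with `τ ↦ e^{-τ}` on `Ioi 0`, image `Ioo 0 1`).  Integrability of the left
side: `0 ≤ FF n (e^{-τ}) ≤ C τ` with `|pp n| ≤ C` on `[0,1]`. -/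
def StKE : Prop := ∀ n : ℕ,
  (∀ τ : ℝ, 0 ≤ τ → FF n (Real.exp (-τ)) = ∫ u in (0 : ℝ)..τ, |pp n (Real.exp (-u))|) ∧
  IntegrableOn (fun τ => Real.exp (-τ) * (1 + ∫ u in (0 : ℝ)..τ, |pp n (Real.exp (-u))|) ^ 2) (Ioi 0) ∧
  ∫ τ in Ioi (0 : ℝ), Real.exp (-τ) * (1 + ∫ u in (0 : ℝ)..τ, |pp n (Real.exp (-u))|) ^ 2 = K2 n

/-- MODULE KF (120 lines). Expansion of the square.
Proof: `|pp n t| ≤ C` on `[0,1]`, so `0 ≤ FF n s ≤ -C log s` for `0 < s ≤ 1`; `FF n` is continuous on `(0,1]`, so `FF n` and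
`FF n ^ 2` are integrable (`|log|` and `log²` are, e.g. `(log s)² ≤ 16 s^{-1/2}`).  Integration by parts on `[δ,1]`:
`∫_δ^1 FF n s ds = -δ FF n δ + ∫_δ^1 |pp n|`, `δ → 0` (`δ log δ → 0`). -/
def StKF : Prop := ∀ n : ℕ,
  (∀ s : ℝ, 0 < s → s ≤ 1 → 0 ≤ FF n s) ∧ ContinuousOn (FF n) (Ioc 0 1) ∧
  IntervalIntegrable (FF n) volume 0 1 ∧ IntervalIntegrable (fun s => FF n s ^ 2) volume 0 1 ∧
  (∫ s in (0 : ℝ)..1, FF n s = ∫ t in (0 : ℝ)..1, |pp n t|) ∧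
  K2 n = 1 + 2 * (∫ t in (0 : ℝ)..1, |pp n t|) + ∫ s in (0 : ℝ)..1, FF n s ^ 2

/-- MODULE MO (100 lines; may use `hA1`, `hA2` of `Helper69.CR`). The two moments.
Proof: (1) `hA1` at `s = t = 1` and `LL j 1 = (-1)^j` (`hA2 (1)`-type sum, or from (3) below), `Σ_{j<n} (2j+1) = n²`.
(2) `(1-x) pp n x = n/2 (LL (n-1) x + LL n x)` (coefficients), `∫_0^1 pp n · LL (n-1) = (-1)^{n+1} LL (n-1) 1 = 1`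
by `hA2 (1)`: `∫_0^1 pp n x · x^i = Σ_j pc n j/(i+j+1) = (-1)^{n+1}` for `i < n`; and `∫_0^1 pp n · LL n = 0`: `pp n` has
degree `< n`, so it is a combination of `LL 0..LL (n-1)`, or directly
`Σ_{i≤n} lc n i/(i+j+1) = 0` for `j < n` (`Σ_i (-1)^i (n+i)!/(i!²(n-i)!(i+j+1)) = ∏_{m<n} (j-m) / ∏_{m≤n} (j+1+m)`). -/
def StMO : Prop :=
  (∀ n : ℕ, ∫ x in (0 : ℝ)..1, pp n x ^ 2 = (n : ℝ) ^ 2) ∧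
  (∀ n : ℕ, ∫ x in (0 : ℝ)..1, (1 - x) * pp n x ^ 2 = (n : ℝ) / 2)

/-- MODULE GG (60 lines). Cauchy–Schwarz for `∫ |p_n|`.
Proof: `∫|p| = ∫ (|p| √φ)(1/√φ) ≤ (∫ p²φ)^{1/2} (∫ 1/φ)^{1/2}`, `φ = E² - t > 0`, `∫_0^1 dt/(E²-t) = log (E²/(E²-1))`. -/
def StGG : Prop := ∀ (n : ℕ) (E : ℝ), 1 < E →
  (∫ t in (0 : ℝ)..1, |pp n t|) ^ 2 ≤
    (∫ t in (0 : ℝ)..1, (E ^ 2 - t) * pp n t ^ 2) * Real.log (E ^ 2 / (E ^ 2 - 1))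

/-- MODULE HA (150 lines; may use `StKF`). The weighted Hardy inequality.
Proof: in the variable `ρ = √s`, `τ = √t`: `FF n (ρ²) = ∫_ρ^1 2|p(τ²)| dτ/τ`, so with `φ(τ) = E² - τ²`
`FF n (ρ²)² ≤ (∫_ρ^1 2 p(τ²)² φ(τ) dτ) · Y(ρ)`, `Y(ρ) = ∫_ρ^1 2 dτ/(τ² φ(τ))`;
`∫_0^1 FF n(s)² ds = ∫_0^1 FF n (ρ²)² 2ρ dρ ≤ ∫_0^1 2 p(τ²)² φ(τ) (∫_0^τ 2ρ Y(ρ) dρ) dτ` (Fubini–Tonelli), and the hypothesis
`∫_0^τ 2ρ Y(ρ) dρ ≤ μ τ` gives `≤ μ ∫_0^1 2 p(τ²)² φ(τ) τ dτ = μ ∫_0^1 (E²-t) p(t)² dt`. -/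
def StHA : Prop := ∀ (n : ℕ) (E μ : ℝ), 1 < E →
  (∀ τ : ℝ, 0 < τ → τ ≤ 1 →
    ∫ ρ in (0 : ℝ)..τ, 2 * ρ * (∫ x in ρ..1, 2 / (x ^ 2 * (E ^ 2 - x ^ 2))) ≤ μ * τ) →
  ∫ s in (0 : ℝ)..1, FF n s ^ 2 ≤ μ * ∫ t in (0 : ℝ)..1, (E ^ 2 - t) * pp n t ^ 2

/-- MODULE YB (150 lines). The bound of the inner integral.
Proof: `2/(x²(E²-x²)) = (2/E²)(1/x² + 1/(E²-x²)) ≤ 2/x² + 2E/(E²-x²)` (`E ≥ 1`), so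
`Y(ρ) ≤ 2(1/ρ-1) + L(1) - L(ρ)`, `L(x) = log((E+x)/(E-x))`, `L' = 2E/(E²-x²)`.  Then
`∫_0^τ 2ρ Y ≤ 4τ - 2τ² + τ² L(1) - ∫_0^τ 2ρ L(ρ) dρ` and `∫_0^τ 2ρ L = (τ²-E²) L(τ) + 2Eτ` (the right side has derivative
`2τ L(τ)`), so `≤ 4τ - 2τ² + τ² L(1) + (E²-τ²) L(τ) - 2Eτ`.  With `u = τ/E`: `L(τ) = log((1+u)/(1-u)) = 2 artanh u` and
`(1-u²) artanh u ≤ u - (2/3)u³ - (2/15)u⁵` (series `Real.hasSum_log_sub_log_of_abs_lt_one`, or monotonicity: the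
difference vanishes at `0` and its derivative is `1-2u²-(2/3)u⁴ - (1 - 2u artanh u) ≥ 0` since
`artanh u ≥ u + u³/3`), so `(E²-τ²) L(τ) ≤ 2Eτ - (4/3) τ³/E - (4/15) τ⁵/E³`.  Divide by `τ`: to prove
`4 - 2τ + τ L(1) - (4/3)τ²/E - (4/15)τ⁴/E³ ≤ L(1) + 1/2`, i.e.
`(1-τ) L(1) ≥ 7/2 - 2τ - (4/3)τ²/E - (4/15)τ⁴/E³`; with `L(1) ≥ log 141 ≥ 4.94`, `E ≤ 71/70` it is
`1.44 - 2.94 τ + 1.314 τ² + .2555 τ⁴ ≥ 0` on `[0,1]` (minimum `.023` near `τ = .88`). -/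
def StYB : Prop := ∀ (E τ : ℝ), 1 < E → E ≤ 71 / 70 → 0 < τ → τ ≤ 1 →
  ∫ ρ in (0 : ℝ)..τ, 2 * ρ * (∫ x in ρ..1, 2 / (x ^ 2 * (E ^ 2 - x ^ 2))) ≤
    (Real.log ((E + 1) / (E - 1)) + 1 / 2) * τ

/-- MODULE K7 (100 lines; from `StKF, StMO, StGG, StHA, StYB`). The bound of `K2`.
Proof: `E = 1 + 1/(10n)`, `∫_0^1 (E²-t) p² = (E²-1) n² + n/2 = 7n/10 + 1/100 =: M`, `(E+1)/(E-1) = 20n+1`,
`E²/(E²-1) ≤ 1+5n`.  So `K2 n ≤ 1 + 2 √(M log(1+5n)) + M (log(20n+1) + 1/2)`,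
`2√(M ℓ) ≤ (171/200) M + (200/171) ℓ`, `log(1+5n) ≤ 3.584 + 5(n-7)/36`, `log(20n+1) ≤ 4.949 + 20(n-7)/141`
(`log 36 ≤ 3.584`, `log 141 ≤ 4.949`, `log x ≤ log x₀ + (x-x₀)/x₀`).  At `n = 7`: `36.15 ≤ 37.06`; then polynomial. -/
def StK7 : Prop := ∀ n : ℕ, 7 ≤ n → K2 n ≤ 4 / 5 * ((30 * (n : ℝ) + 1) / 31) ^ 2

/-- MODULE CL (80 lines). Lower bound of `C_n(a)`.
Proof: induction on `n`: `Cn 1 a = (1-a)/a`; the step is, for `k ≥ 1`, `x = 1-2a ∈ [3/4,1]`,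
`(k+1-a)/(k+a) ≥ ((k+1+δ)/(k+δ))^x`, `δ = 1/30` (note `(30(k+1)+1)/(30k+1) = (k+1+δ)/(k+δ)`), i.e. with `u = 1/(2k+1)`,
`u' = 1/(2k+1+1/15)`: `artanh(x u) ≥ x artanh u'`.  `artanh(xu) ≥ xu + (xu)³/3`, `artanh u' ≤ u' + u'³/(3(1-u'²))`, and
`u - u' = u u'/15`.  So it suffices `u u'/15 + x² u³/3 ≥ u'³/(3(1-u'²))`, enough at `x = 3/4` (rational in `k`, at `k = 1`
`.01419 ≥ .01293`; model: `Helper69/CR/M_NU.lean`, `atanh_NU`, `key_NU`). -/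
def StCL : Prop := ∀ (n : ℕ) (a : ℝ), 1 ≤ n → 0 < a → a ≤ 1 / 8 →
  (1 - a) * ((30 * (n : ℝ) + 1) / 31) ^ (1 - 2 * a) ≤ a * Cn n a

/-- MODULE CP (60 lines; from `StK7`, `StCL`). The loss for `n ≥ 7`.
Proof: `0 ≤ K2 n`, `K2^{1-2a} ≤ (4/5)^{1-2a} ((30n+1)/31)^{2-4a} ≤ (4/5)^{1-2a} (a Cn)²/(1-a)²`, and
`(4/5)^{1-2a} ≤ (1-a)² (4/5 + 14a/5)` for `0 ≤ a ≤ 1/8`: `(5/4)^{2a} ≤ 1 + (23/50) a` (convexity in `a`, values at `0` and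
`1/8`: `(5/4)^{1/4} ≤ 1 + 23/400`), `(1-a)²(1+7a/2) - 1 - (23/50)a ≥ 0`. -/
def StCP : Prop := ∀ (n : ℕ) (a : ℝ), 7 ≤ n → 0 < a → a ≤ 1 / 8 →
  K2 n ^ (1 - 2 * a) ≤ Cn n a ^ 2 * (4 / 5 * a ^ 2 + 14 / 5 * a ^ 3)

/-- MODULE RR (60 lines). The recursion numbers.
(1) doubling, `p ≥ 8`: `2 ee a = ee (2a) + 4/5 a² + 14/5 a³` exactly, and `(1+x)² ≥ 1+2x`.
(2) the node step on `[4,8]`, `θ = 2-8a`, `L₈ = 23/1280 = (4/5 + 14/40)/64`: polynomial in `a` of degree 3.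
(3) `0 ≤ ee a` for `0 ≤ a ≤ 1/4`. -/
def StRR : Prop :=
  (∀ a : ℝ, 0 ≤ a → a ≤ 1 / 8 →
    1 + ee (2 * a) + (4 / 5 * a ^ 2 + 14 / 5 * a ^ 3) ≤ (1 + ee a) ^ 2) ∧
  (∀ a : ℝ, 1 / 8 ≤ a → a ≤ 1 / 4 →
    (2 - 8 * a) * (4 - (2 - 8 * a) ^ 2) / 6 * (23 / 1280) ≤ ee a) ∧
  (∀ a : ℝ, 0 ≤ a → a ≤ 1 / 4 → 0 ≤ ee a)

/-- MODULE SL (120 lines). The slack: `C_n(a) (1 + ee a) ≤ n^{1-2a} (1-a)/a` for `n ≥ 3`.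
Proof: induction on `n ≥ 3`; step `(n+1-a)/(n+a) ≤ ((n+1)/n)^{1-2a}` (`key_NU` in `Helper69/CR/M_NU.lean`, copy it).
`n = 3`: `(1-a)(2-a)(3-a)/(a(1+a)(2+a)) (1+ee a) ≤ 3^{1-2a} (1-a)/a`, i.e.
`(2-a)(3-a)(1+ee a) ≤ 3 (1+a)(2+a) 3^{-2a}`, with `3^{-2a} = e^{-x}`, `x = 2a log 3`, `e^{-x} ≥ 1 - x + x²/2 - x³/6`
(decreasing in `x ≤ 1`: use `log 3 ≤ 1.0986123`; Mathlib: `Real.log_three_lt`-type bounds or `log 3 = log 9/8 + 3 log 2`),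
polynomial in `a` on `[0,1/4]`; first order `.1361 a` against `.13 a`. -/
def StSL : Prop := ∀ (n : ℕ) (a : ℝ), 3 ≤ n → 0 < a → a ≤ 1 / 4 →
  Cn n a * (1 + ee a) ≤ (n : ℝ) ^ (1 - 2 * a) * ((1 - a) / a)

end Helper85.CP
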