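import Pool.Agent.Helper85.CP.Tab

/-!
# MP_3dd6d4_an, project CP: every `n ≥ 3` has a node with loss function `lCP`
-/

set_option autoImplicit false

open MeasureTheory Set Filter Topology

noncomputable section

namespace Helper85.CP

open Helper69.CR Helper71.P4 Helper53.P4T

/-- the tables with their numbers. -/
theorem tabs_CP (n : ℕ) (h3 : 3 ≤ n) (h6 : n ≤ 6) : ∃ (ρ : ℕ → ℝ → ℝ) (M M1 : ℝ), TNumC n M M1 ∧
    ∀ ν : ℕ → ℝ → ℝ, NN n ν → Tab n ν ρ M M1 := by
  obtain rfl | rfl | rfl | rfl : n = 3 ∨ n = 4 ∨ n = 5 ∨ n = 6 := by omega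
  · refine ⟨rho C3, ((309 / 1000 : ℚ) : ℝ), ((229 / 250 : ℚ) : ℝ), ?_, fun ν hν =>
      tab_cert 3 (by norm_num) N3 C3 _ _ id3 chk3 tot3 ν hν⟩
    refine ⟨by norm_num, by norm_num, 2587 / 1000, by norm_num, by norm_num, ?_, ?_⟩
    · norm_num [Cn, Finset.prod_range_succ]
    · norm_num [Cn, Finset.prod_range_succ]
  · refine ⟨rho C4, ((459 / 1000 : ℚ) : ℝ), ((224 / 125 : ℚ) : ℝ), ?_, fun ν hν =>
      tab_cert 4 (by norm_num) N4 C4 _ _ id4 chk4 tot4 ν hν⟩
    refine ⟨by norm_num, by norm_num, 4274 / 1000, by norm_num, by norm_num, ?_, ?_⟩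
    · norm_num [Cn, Finset.prod_range_succ]
    · norm_num [Cn, Finset.prod_range_succ]
  · refine ⟨rho C5, ((153 / 250 : ℚ) : ℝ), ((2937 / 1000 : ℚ) : ℝ), ?_, fun ν hν =>
      tab_cert 5 (by norm_num) N5 C5 _ _ id5 chk5 tot5 ν hν⟩
    refine ⟨by norm_num, by norm_num, 6186 / 1000, by norm_num, by norm_num, ?_, ?_⟩
    · norm_num [Cn, Finset.prod_range_succ]
    · norm_num [Cn, Finset.prod_range_succ]
  · refine ⟨rho C6, ((773 / 1000 : ℚ) : ℝ), ((1103 / 250 : ℚ) : ℝ), ?_, fun ν hν =>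
      tab_cert 6 (by norm_num) N6 C6 _ _ id6 chk6 tot6 ν hν⟩
    refine ⟨by norm_num, by norm_num, 8380 / 1000, by norm_num, by norm_num, ?_, ?_⟩
    · norm_num [Cn, Finset.prod_range_succ]
    · norm_num [Cn, Finset.prod_range_succ]

/-- a table gives the structure `TD` and its loss. -/
theorem tab_TD_CP {n : ℕ} {ν ρ : ℕ → ℝ → ℝ} {M M1 : ℝ} (hn : 3 ≤ n) (hn7 : n ≤ 7) (hν : NN n ν)
    (hT : Tab n ν ρ M M1) (hN : TNumC n M M1) :
    Helper69.CS.TD n ν ρ (PT n) ∧
    ∀ p : ℝ, 8 ≤ p → Helper69.CS.lossT n ρ (PT n) p ≤ lCP p * Cn n (1 / p) ^ 2 := by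
  obtain ⟨C, hC⟩ := hT.bdd
  refine ⟨⟨hν, fun k x _ _ => hT.nonneg k x, hT.meas, ⟨C, fun k x _ _ => hC k x⟩, ?_, ?_,
    PT_bound n hn7⟩, ?_⟩
  · rintro k x (hk | hk)
    · exact hT.low k x hk
    · exact hT.high k x (by omega)
  · intro k hk hk' x hx hx'
    exact hT.pos k x hk hk' hx hx'
  · intro p hp
    -- integrability of each `ρ_k/x`
    have hint : ∀ k ∈ Finset.range (2 * n), IntegrableOn (fun x => ρ k x / x) (Ioo 0 1) := by
      intro k hk
      refine Integrable.mono' hT.int0 ((hT.meas k).div measurable_id).aestronglyMeasurable ?_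
      filter_upwards [ae_restrict_mem measurableSet_Ioo] with x hx
      rw [Real.norm_of_nonneg (div_nonneg (hT.nonneg k x) hx.1.le)]
      exact div_le_div_of_nonneg_right
        (Finset.single_le_sum (f := fun k => ρ k x) (fun i _ => hT.nonneg i x) hk) hx.1.le
    set μ : ℕ → ℝ := fun k => ∫ x in Ioo (0 : ℝ) 1, ρ k x / x with hμ
    have hμ0 : ∀ k, 0 ≤ μ k := by
      intro k
      refine setIntegral_nonneg measurableSet_Ioo fun x hx => ?_
      exact div_nonneg (hT.nonneg k x) hx.1.le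
    have hs0 : ∑ k ∈ Finset.range (2 * n), μ k ≤ M := by
      refine le_trans (le_of_eq ?_) hT.le0
      rw [hμ, ← integral_finsetSum _ hint]
      refine integral_congr_ae (Eventually.of_forall fun x => ?_)
      simp only [Finset.sum_div]
    have hs1 : ∑ k ∈ Finset.range (2 * n), (k : ℝ) * μ k ≤ M1 := by
      refine le_trans (le_of_eq ?_) hT.le1
      have : ∀ k ∈ Finset.range (2 * n), IntegrableOn (fun x => (k : ℝ) * (ρ k x / x)) (Ioo 0 1) :=
        fun k hk => (hint k hk).const_mul _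
      rw [hμ]
      simp only [← integral_const_mul]
      rw [← integral_finsetSum _ this]
      refine integral_congr_ae (Eventually.of_forall fun x => ?_)
      simp only [Finset.sum_div, mul_div_assoc]
    have hmain := loss_TC n M M1 (by omega) hN μ hμ0 hs0 hs1 p hp
    refine le_trans ?_ hmain
    unfold Helper69.CS.lossT
    refine mul_le_mul_of_nonneg_left ?_ (by norm_num)
    have hr : ∀ k : ℕ, (0 : ℝ) ≤ 2 * (1 + 37 / 20 * Real.sqrt k) ^ (1 - 4 / p) := fun k => by positivity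
    have hd : ∀ k ∈ Finset.range (2 * n), IntegrableOn (fun d => ρ k (Real.exp (-d))) (Ioi 0) :=
      fun k hk => (cv_exp (ρ k)).1.1 (hint k hk)
    have hd' : ∀ k ∈ Finset.range (2 * n), IntegrableOn (fun d => ρ k (Real.exp (-d)) *
        (2 * (1 + 37 / 20 * Real.sqrt k) ^ (1 - 4 / p))) (Ioi 0) :=
      fun k hk => (hd k hk).mul_const _
    have e : ∑ k ∈ Finset.range (2 * n), μ k * (2 * (1 + 37 / 20 * Real.sqrt k) ^ (1 - 4 / p))
        = ∫ d in Ioi (0 : ℝ), ∑ k ∈ Finset.range (2 * n), ρ k (Real.exp (-d)) *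
          (2 * (1 + 37 / 20 * Real.sqrt k) ^ (1 - 4 / p)) := by
      rw [integral_finsetSum _ hd']
      refine Finset.sum_congr rfl fun k hk => ?_
      rw [integral_mul_const, hμ]
      simp only
      rw [(cv_exp (ρ k)).2]
    rw [e]
    have ePT : ∀ d : ℝ, ∑ k ∈ Finset.range (2 * n), ρ k (Real.exp (-d)) *
        (2 * (1 + PT n k) ^ (1 - 4 / p)) = ∑ k ∈ Finset.range (2 * n), ρ k (Real.exp (-d)) *
          (2 * (1 + 37 / 20 * Real.sqrt k) ^ (1 - 4 / p)) := by
      intro d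
      refine Finset.sum_congr rfl fun k hk => ?_
      unfold PT
      rw [if_pos (Finset.mem_range.1 hk)]
    simp_rw [ePT]
    refine integral_mono_of_nonneg ?_ (integrable_finsetSum _ hd') ?_
    · refine Eventually.of_forall fun d => ?_
      exact mul_nonneg (Real.exp_pos _).le (Finset.sum_nonneg fun k _ =>
        mul_nonneg (hT.nonneg k _) (hr k))
    · filter_upwards [ae_restrict_mem measurableSet_Ioi] with d hd0
      have h1 : Real.exp (-d / p) ≤ 1 := by
        rw [Real.exp_le_one_iff]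
        have : 0 ≤ d / p := div_nonneg (le_of_lt hd0) (by linarith)
        rw [neg_div]
        linarith
      have h2 : 0 ≤ ∑ k ∈ Finset.range (2 * n), ρ k (Real.exp (-d)) *
          (2 * (1 + 37 / 20 * Real.sqrt k) ^ (1 - 4 / p)) :=
        Finset.sum_nonneg fun k _ => mul_nonneg (hT.nonneg k _) (hr k)
      calc _ ≤ 1 * ∑ k ∈ Finset.range (2 * n), ρ k (Real.exp (-d)) *
          (2 * (1 + 37 / 20 * Real.sqrt k) ^ (1 - 4 / p)) := mul_le_mul_of_nonneg_right h1 h2
        _ = _ := one_mul _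

/-- every `n ≥ 3` has a node with small loss. -/
theorem small_all_CP (hPN : Helper69.CS.StPN) (hTN' : Helper69.CS.StTN) (n : ℕ) (hn : 3 ≤ n) :
    Helper69.CS.Small lCP n := by
  rcases le_or_gt 7 n with h7 | h7
  · exact small_phi7 hPN n h7
  · obtain ⟨ρ, M, M1, hN, hρ⟩ := tabs_CP n hn (by omega)
    obtain ⟨ν, hν⟩ := hA3 Pool.Agent.Helper35.QP.hQ hA1 (hA2 hKR) n (by omega)
    obtain ⟨hTD, hL⟩ := tab_TD_CP hn (by omega) hν (hρ ν hν) hN
    obtain ⟨h0, c, hc⟩ := hTN' n ν ρ _ (by omega) hTD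
    refine ⟨1, _, c, hc, ?_, ?_⟩
    · have := h0 8
      linarith
    · intro p hp
      simp only [add_sub_cancel_left]
      exact hL p hp

/-- the bound for all `n ≥ 1`, `p ≥ 4`, from the analysis modules. -/
theorem bound_CP (hPN : Helper69.CS.StPN) (hTN' : Helper69.CS.StTN) (hREC : Helper69.CS.StREC)
    (n : ℕ) (p : ℝ) (hn : 1 ≤ n) (hp : 4 ≤ p) : Helper69.CS.Bd n p (1 + eCP p) :=
  hREC eCP lCP rec_numbers.1 rec_numbers.2.1 rec_numbers.2.2 (small_all_CP hPN hTN') n p hn hp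

end Helper85.CP
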