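import Pool.Agent.Helper85.CP.Tab2
import Pool.Agent.Helper68.CSG.Glue
import Pool.Agent.Helper69.CS.M_GEN
import Pool.Agent.Helper69.CS.M_NR
import Pool.Agent.Helper69.CS.M_PHC
import Pool.Agent.Helper69.CS.M_PHI
import Pool.Agent.Helper69.CS.M_PL2
import Pool.Agent.Helper69.CS.M_PN
import Pool.Agent.Helper69.CS.M_PQ
import Pool.Agent.Helper69.CS.M_PS
import Pool.Agent.Helper69.CS.M_PZ8
import Pool.Agent.Helper69.CS.M_REC
import Pool.Agent.Helper69.CS.M_RT
import Pool.Agent.Helper69.CS.M_SCb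
import Pool.Agent.Helper69.CS.M_ST8
import Pool.Agent.Helper69.CS.M_T4g
import Pool.Agent.Helper69.CS.M_TN
import Pool.Agent.Helper69.CS.M_TSb
import Pool.Agent.Helper69.CS.M_V8
import Pool.Agent.Helper69.CS.M_WE

/-!
# MP_3dd6d4_an: the critical mode for all `n` and all `p ≥ 4`, and every angular mode
-/

set_option autoImplicit false

open MeasureTheory Set Filter Topology
open scoped ENNReal NNReal SchwartzMap

noncomputable section

namespace Helper85.CP

open Helper85.BP Helper69.CR Helper69.CR.DB Helper69.CS Pool.Agent.Helper68.BA Helper68.CSG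

theorem PN_closed : StPN :=
  hPN hPHC hPHI (hPQ (hPL2 hPHC hPHI)) (hPS hGEN)

theorem TN_closed : Helper69.CS.StTN := Helper69.CS.hTN (hTSb hRT) hSCb

theorem T4g_closed : StT4g :=
  hT4g (hA3 Pool.Agent.Helper35.QP.hQ hA1 (hA2 hKR)) (hKP hPF) (hAV hPR) hKD
    (hTS hLY (hIS2 hKR) (hKP hPF)) (hSC hPF)

theorem REC_closed : StREC := hREC hNR (hST8 hWE T4g_closed hV8 hPZ8)

/-- the critical mode, one-dimensional form: all `n ≥ 1`, `p ≥ 4`. -/
theorem Bd_all (n : ℕ) (p : ℝ) (hn : 1 ≤ n) (hp : 4 ≤ p) : Bd n p (1 + eCP p) :=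
  bound_CP PN_closed TN_closed REC_closed n p hn hp

/-- every angular mode, all `n ≥ 1` and `p ≥ 2` -/
theorem every_mode_CP (n : ℕ) (hn : 1 ≤ n) (p : ℝ) (hp : 2 ≤ p) (m : ℤ)
    (f : SchwartzMap ℂ ℂ)
    (hf : ∀ (θ : ℝ) (z : ℂ),
      f (Complex.exp (θ * Complex.I) * z) = Complex.exp (m * θ * Complex.I) * f z) :
    MeasureTheory.eLpNorm
        (fun z : ℂ => ∫ ξ : ℂ,
          Complex.exp (2 * (Real.pi : ℂ) * Complex.I * ((z.re * ξ.re + z.im * ξ.im : ℝ) : ℂ)) *
            ((starRingEnd ℂ ξ / ξ) ^ n *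
              ∫ w : ℂ, Complex.exp (-(2 * (Real.pi : ℂ) * Complex.I *
                ((w.re * ξ.re + w.im * ξ.im : ℝ) : ℂ))) * f w))
        (ENNReal.ofReal p) MeasureTheory.volume
      ≤ ENNReal.ofReal (if m = 2 * n then
            (1 + if p ≤ 4 ∨ n ≤ 2 then 0 else
              13 / 100 / p - 2 / 5 / p ^ 2 - 7 / 15 / p ^ 3) *
              ∏ k ∈ Finset.range n, ((k + 1 - 1 / p) / (k + 1 / p))
          else (Real.exp 2 * max 1 (min |(m : ℝ) - n| n)) ^ (1 - 2 / p)) *
        MeasureTheory.eLpNorm (fun z : ℂ => f z) (ENNReal.ofReal p) MeasureTheory.volume ∧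
    (if m = 2 * n then
        (1 + if p ≤ 4 ∨ n ≤ 2 then 0 else
          13 / 100 / p - 2 / 5 / p ^ 2 - 7 / 15 / p ^ 3) *
          ∏ k ∈ Finset.range n, ((k + 1 - 1 / p) / (k + 1 / p))
      else (Real.exp 2 * max 1 (min |(m : ℝ) - n| n)) ^ (1 - 2 / p)) ≤
      (n : ℝ) ^ (1 - 2 / p) * (p - 1) := by
  have hcast : ((m - n : ℤ) : ℝ) = (m : ℝ) - n := by push_cast; rfl
  by_cases h2 : m = 2 * n
  · rw [if_pos h2]
    have hf2 : ∀ (θ : ℝ) (z : ℂ),
        f (Complex.exp (θ * Complex.I) * z) =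
          Complex.exp (((2 * n : ℕ) : ℂ) * θ * Complex.I) * f z := by
      intro θ z
      rw [hf θ z, h2]
      norm_cast
    by_cases hm : p ≤ 4 ∨ n ≤ 2
    · rw [if_pos hm, add_zero, one_mul]
      exact ⟨crit_sharp n hn p hp hm f hf2, hNU n p hn hp⟩
    · rw [if_neg hm]
      push Not at hm
      have hp0 : 0 < p := by linarith
      have he : 13 / 100 / p - 2 / 5 / p ^ 2 - 7 / 15 / p ^ 3 = eCP p := by
        unfold eCP ee
        field_simp
      rw [he]
      have he0 : 0 ≤ eCP p := rec_numbers.2.2 p hm.1.le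
      have hC : 0 ≤ (1 + eCP p) * Cn n (1 / p) := by
        apply mul_nonneg
        · linarith
        · exact Cn_nonneg n (1 / p) (by positivity) (by rw [div_le_one (by linarith)]; linarith)
      refine ⟨crit_modeC n p _ hp hC ?_ f hf2, slack n p (by omega) hm.1.le⟩
      exact oneDC_of_Bd n p _ (by linarith) hC (Bd_all n p hn hm.1.le)
  · rw [if_neg h2]
    constructor
    · rw [frozen_eq]
      refine mult_bound n f p hp _ fun t => ?_
      have hmode : HasMode (m - n) (phi n t f) := phi_mode n t f hf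
      have h := mode_bound n hn (m - n) (by omega) p hp (phi n t f) hmode
      rw [hcast] at h
      rw [(iter_dzS (phi n t f) (m - n) hmode n).2, (iter_dzbarS (phi n t f) (m - n) hmode n).2]
      exact h
    · have h := const_le n hn (m - n) p hp
      rwa [hcast] at h

end Helper85.CP
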