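import Pool.Agent.Helper85.CP.St

/-!
# MP_3dd6d4_an, project CP, module CL: lower bound of `C_n(a)`
-/

set_option autoImplicit false

namespace Helper85.CP

open Helper69.CR

private theorem lo_CL (y : ℝ) (h0 : 0 ≤ y) (h1 : y < 1) :
    2 * y + 2 / 3 * y ^ 3 ≤ Real.log (1 + y) - Real.log (1 - y) := by
  have h := Real.hasSum_log_sub_log_of_abs_lt_one (x := y) (by rw [abs_of_nonneg h0]; exact h1)
  have h2 := sum_le_hasSum (Finset.range 2) (fun k _ => by positivity) h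
  rw [Finset.sum_range_succ, Finset.sum_range_one] at h2
  refine le_trans (le_of_eq ?_) h2
  norm_num

private theorem up_CL (v : ℝ) (h0 : 0 ≤ v) (h1 : v < 1) :
    Real.log (1 + v) - Real.log (1 - v) ≤ 2 * v + 2 / 3 * v ^ 3 / (1 - v ^ 2) := by
  have h := Real.hasSum_log_sub_log_of_abs_lt_one (x := v) (by rw [abs_of_nonneg h0]; exact h1)
  have hv2 : v ^ 2 < 1 := by nlinarith
  have hg := (hasSum_geometric_of_lt_one (sq_nonneg v) hv2).mul_left (2 / 3 * v)
  have hs := hasSum_ite_eq (0 : ℕ) (4 / 3 * v)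
  have h3 := hs.add hg
  have h4 := hasSum_le (fun k => ?_) h h3
  · refine h4.trans (le_of_eq ?_)
    have : 1 - v ^ 2 ≠ 0 := by linarith
    field_simp
    ring
  · rcases Nat.eq_zero_or_pos k with hk | hk
    · subst hk
      norm_num
      linarith
    · rw [if_neg hk.ne', zero_add]
      have e1 : v ^ (2 * k + 1) = v * (v ^ 2) ^ k := by rw [pow_succ, pow_mul]; ring
      rw [e1]
      have h5 : (0 : ℝ) ≤ v * (v ^ 2) ^ k := by positivity
      have h6 : 2 * (1 / (2 * (k : ℝ) + 1)) ≤ 2 / 3 := by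
        have : (1 : ℝ) ≤ k := by exact_mod_cast hk
        have h7 : 1 / (2 * (k : ℝ) + 1) ≤ 1 / 3 :=
          one_div_le_one_div_of_le (by norm_num) (by linarith)
        linarith
      calc 2 * (1 / (2 * (k : ℝ) + 1)) * (v * (v ^ 2) ^ k) ≤ 2 / 3 * (v * (v ^ 2) ^ k) :=
            mul_le_mul_of_nonneg_right h6 h5
        _ = 2 / 3 * v * (v ^ 2) ^ k := by ring

private theorem key_CL (k : ℕ) (hk : 1 ≤ k) (x : ℝ) (hx0 : 3 / 4 ≤ x) (hx1 : x ≤ 1) :
    ((30 * ((k : ℝ) + 1) + 1) / (30 * (k : ℝ) + 1)) ^ x ≤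
      (2 * (k : ℝ) + 1 + x) / (2 * (k : ℝ) + 1 - x) := by
  have hk0 : (1 : ℝ) ≤ k := by exact_mod_cast hk
  set u : ℝ := 1 / (2 * (k : ℝ) + 1) with hu
  set v : ℝ := 15 / (30 * (k : ℝ) + 16) with hv
  have hu0 : 0 < u := by positivity
  have hv0 : 0 < v := by positivity
  have hv1 : v ≤ 15 / 46 := by
    rw [hv]
    exact div_le_div_of_nonneg_left (by norm_num) (by norm_num) (by linarith)
  have hvu : v ≤ u := by
    rw [hu, hv, div_le_div_iff₀ (by positivity) (by positivity)]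
    linarith
  have huv : u - v = u * v / 15 := by
    rw [hu, hv]
    field_simp
    ring
  have hu1 : u ≤ 1 / 3 := by
    rw [hu]
    exact one_div_le_one_div_of_le (by norm_num) (by linarith)
  have hx00 : 0 ≤ x := by linarith
  have h1 := lo_CL (u * x) (by positivity) (by nlinarith)
  have h2 := up_CL v hv0.le (by linarith)
  have e1 : 1 + u * x = (2 * (k : ℝ) + 1 + x) / (2 * (k : ℝ) + 1) := by
    rw [hu]; field_simp
  have e2 : 1 - u * x = (2 * (k : ℝ) + 1 - x) / (2 * (k : ℝ) + 1) := by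
    rw [hu]; field_simp
  have hd : 0 < 2 * (k : ℝ) + 1 - x := by linarith
  have e3 : 1 + v = (30 * ((k : ℝ) + 1) + 1) / (30 * (k : ℝ) + 16) := by
    rw [hv]; field_simp; ring
  have e4 : 1 - v = (30 * (k : ℝ) + 1) / (30 * (k : ℝ) + 16) := by
    rw [hv]; field_simp; ring
  rw [e1, e2, ← Real.log_div (by positivity) (by positivity),
    div_div_div_cancel_right₀ (by positivity)] at h1
  rw [e3, e4, ← Real.log_div (by positivity) (by positivity),
    div_div_div_cancel_right₀ (by positivity)] at h2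
  rw [Real.rpow_def_of_pos (by positivity), mul_comm (Real.log _) x,
    ← Real.le_log_iff_exp_le (div_pos (by positivity) hd)]
  have h3 : v ^ 3 / (1 - v ^ 2) ≤ 9 / 8 * v ^ 3 := by
    have h4 : 8 / 9 ≤ 1 - v ^ 2 := by nlinarith
    rw [div_le_iff₀ (by linarith)]
    have h5 : 0 ≤ v ^ 3 := by positivity
    nlinarith
  have h4 : 2 * v + 2 / 3 * v ^ 3 / (1 - v ^ 2) ≤ 2 * u + 2 / 3 * u ^ 3 * x ^ 2 := by
    have h5 : 2 / 3 * v ^ 3 / (1 - v ^ 2) = 2 / 3 * (v ^ 3 / (1 - v ^ 2)) := by ring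
    have h6 : v ^ 3 ≤ u ^ 3 := pow_le_pow_left₀ hv0.le hvu 3
    have h7 : 9 / 16 ≤ x ^ 2 := by nlinarith
    have h8 : u ^ 3 * (9 / 16) ≤ u ^ 3 * x ^ 2 := mul_le_mul_of_nonneg_left h7 (by positivity)
    have h9 : v * v ≤ u * v := mul_le_mul_of_nonneg_right hvu hv0.le
    have h10 : v ^ 3 ≤ 15 / 46 * (v * v) := by
      have : v ^ 3 = v * (v * v) := by ring
      rw [this]
      exact mul_le_mul_of_nonneg_right hv1 (by positivity)
    rw [h5]
    have h11 : 0 ≤ v * v := by positivity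
    linarith
  calc x * Real.log ((30 * ((k : ℝ) + 1) + 1) / (30 * (k : ℝ) + 1))
      ≤ x * (2 * u + 2 / 3 * u ^ 3 * x ^ 2) :=
        mul_le_mul_of_nonneg_left (h2.trans h4) hx00
    _ = 2 * (u * x) + 2 / 3 * (u * x) ^ 3 := by ring
    _ ≤ _ := h1

theorem hCL : StCL := by
  intro n a hn ha0 ha1
  induction n, hn using Nat.le_induction with
  | base =>
    unfold Cn
    rw [Finset.prod_range_one, Nat.cast_one, Nat.cast_zero]
    have h1 : (30 * (1 : ℝ) + 1) / 31 = 1 := by norm_num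
    rw [h1, Real.one_rpow]
    apply le_of_eq
    field_simp
    ring
  | succ n hn ih =>
    have hn0 : (1 : ℝ) ≤ n := by exact_mod_cast hn
    have h1 : Cn (n + 1) a = Cn n a * (((n : ℝ) + 1 - a) / ((n : ℝ) + a)) := by
      unfold Cn
      rw [Finset.prod_range_succ]
    have h2 := key_CL n hn (1 - 2 * a) (by linarith) (by linarith)
    have h3 : (2 * (n : ℝ) + 1 + (1 - 2 * a)) / (2 * (n : ℝ) + 1 - (1 - 2 * a)) =
        ((n : ℝ) + 1 - a) / ((n : ℝ) + a) := by
      rw [show 2 * (n : ℝ) + 1 + (1 - 2 * a) = 2 * ((n : ℝ) + 1 - a) by ring,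
        show 2 * (n : ℝ) + 1 - (1 - 2 * a) = 2 * ((n : ℝ) + a) by ring,
        mul_div_mul_left _ _ two_ne_zero]
    rw [h3] at h2
    rw [h1]
    have h4 : 0 ≤ ((30 * ((n : ℝ) + 1) + 1) / (30 * (n : ℝ) + 1)) ^ (1 - 2 * a) :=
      Real.rpow_nonneg (by positivity) _
    have h5 : 0 ≤ (1 - a) * ((30 * (n : ℝ) + 1) / 31) ^ (1 - 2 * a) :=
      mul_nonneg (by linarith) (Real.rpow_nonneg (by positivity) _)
    calc (1 - a) * ((30 * ((n + 1 : ℕ) : ℝ) + 1) / 31) ^ (1 - 2 * a)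
        = ((1 - a) * ((30 * (n : ℝ) + 1) / 31) ^ (1 - 2 * a)) *
          ((30 * ((n : ℝ) + 1) + 1) / (30 * (n : ℝ) + 1)) ^ (1 - 2 * a) := by
          rw [mul_assoc, ← Real.mul_rpow (by positivity) (by positivity)]
          congr 2
          push_cast
          field_simp
      _ ≤ (a * Cn n a) * (((n : ℝ) + 1 - a) / ((n : ℝ) + a)) :=
          mul_le_mul ih h2 h4 (h5.trans ih)
      _ = a * (Cn n a * (((n : ℝ) + 1 - a) / ((n : ℝ) + a))) := by ring

end Helper85.CP
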