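import Pool.Agent.Helper85.CP.St

/-!
# MP_3dd6d4_an, project CP, module CP: the loss for `n ≥ 7`
-/

set_option autoImplicit false

open MeasureTheory Set Filter Topology

namespace Helper85.CP

open Helper69.CR

theorem K2_nonneg_CP (n : ℕ) : 0 ≤ K2 n := by
  unfold K2
  apply intervalIntegral.integral_nonneg zero_le_one
  intro s _
  positivity

private theorem pow_CP (a : ℝ) (h0 : 0 < a) (h1 : a ≤ 1 / 8) :
    (4 / 5 : ℝ) ^ (1 - 2 * a) ≤ 4 / 5 * (1 + 23 / 50 * a) := by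
  have hb : (5 / 4 : ℝ) ^ (1 / 4 : ℝ) ≤ 1 + 23 / 400 := by
    have h2 : (5 / 4 : ℝ) ≤ (1 + 23 / 400) ^ (4 : ℕ) := by norm_num
    calc (5 / 4 : ℝ) ^ (1 / 4 : ℝ) ≤ ((1 + 23 / 400 : ℝ) ^ (4 : ℕ)) ^ (1 / 4 : ℝ) :=
          Real.rpow_le_rpow (by norm_num) h2 (by norm_num)
      _ = 1 + 23 / 400 := by
          rw [← Real.rpow_natCast, ← Real.rpow_mul (by norm_num)]
          norm_num
  have h3 : (5 / 4 : ℝ) ^ (2 * a) = ((5 / 4 : ℝ) ^ (1 / 4 : ℝ)) ^ (8 * a) := by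
    rw [← Real.rpow_mul (by norm_num)]
    congr 1
    ring
  have h4 : (5 / 4 : ℝ) ^ (2 * a) ≤ 1 + 23 / 50 * a := by
    rw [h3]
    calc ((5 / 4 : ℝ) ^ (1 / 4 : ℝ)) ^ (8 * a) ≤ (1 + 23 / 400 : ℝ) ^ (8 * a) :=
          Real.rpow_le_rpow (by positivity) hb (by positivity)
      _ ≤ 1 + 8 * a * (23 / 400) := by
          have := rpow_one_add_le_one_add_mul_self (s := (23 / 400 : ℝ)) (p := 8 * a)
            (by norm_num) (by positivity) (by linarith)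
          linarith
      _ = 1 + 23 / 50 * a := by ring
  have h5 : (4 / 5 : ℝ) ^ (1 - 2 * a) = 4 / 5 * (5 / 4 : ℝ) ^ (2 * a) := by
    rw [Real.rpow_sub (by norm_num), Real.rpow_one, div_eq_mul_inv, ← Real.inv_rpow (by norm_num)]
    norm_num
  rw [h5]
  exact mul_le_mul_of_nonneg_left h4 (by norm_num)

theorem hCP (hK7 : StK7) (hCL : StCL) : StCP := by
  intro n a hn h0 h1
  have hn1 : (7 : ℝ) ≤ n := by exact_mod_cast hn
  set X : ℝ := (30 * (n : ℝ) + 1) / 31 with hX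
  have hX0 : 0 < X := by positivity
  have hK := hK7 n hn
  have hC := hCL n a (by omega) h0 h1
  rw [← hX] at hK hC
  have h1a : 0 < 1 - a := by linarith
  have he : 0 ≤ 1 - 2 * a := by linarith
  have hCn : 0 ≤ Cn n a := by
    unfold Cn
    refine Finset.prod_nonneg fun k _ => ?_
    have hk : (0 : ℝ) ≤ k := Nat.cast_nonneg k
    apply div_nonneg <;> linarith
  have hXp : 0 < X ^ (1 - 2 * a) := Real.rpow_pos_of_pos hX0 _
  have h2 : X ^ (1 - 2 * a) ≤ a * Cn n a / (1 - a) := by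
    rw [le_div_iff₀ h1a]
    linarith
  have h3 : (X ^ (1 - 2 * a)) ^ 2 ≤ (a * Cn n a / (1 - a)) ^ 2 := pow_le_pow_left₀ hXp.le h2 2
  have h4 : K2 n ^ (1 - 2 * a) ≤ (4 / 5 : ℝ) ^ (1 - 2 * a) * (X ^ (1 - 2 * a)) ^ 2 := by
    calc K2 n ^ (1 - 2 * a) ≤ (4 / 5 * X ^ 2) ^ (1 - 2 * a) :=
          Real.rpow_le_rpow (K2_nonneg_CP n) hK he
      _ = (4 / 5 : ℝ) ^ (1 - 2 * a) * (X ^ (1 - 2 * a)) ^ 2 := by
          rw [Real.mul_rpow (by norm_num) (by positivity), ← Real.rpow_natCast X 2,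
            ← Real.rpow_mul hX0.le, ← Real.rpow_natCast (X ^ (1 - 2 * a)) 2,
            ← Real.rpow_mul hX0.le]
          congr 2
          ring
  have h5 := pow_CP a h0 h1
  have h6 : 4 / 5 * (1 + 23 / 50 * a) ≤ (1 - a) ^ 2 * (4 / 5 + 14 / 5 * a) := by
    nlinarith [mul_nonneg h0.le (sub_nonneg.mpr h1), mul_nonneg (mul_nonneg h0.le h0.le) (sub_nonneg.mpr h1)]
  calc K2 n ^ (1 - 2 * a) ≤ (4 / 5 : ℝ) ^ (1 - 2 * a) * (X ^ (1 - 2 * a)) ^ 2 := h4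
    _ ≤ ((1 - a) ^ 2 * (4 / 5 + 14 / 5 * a)) * (a * Cn n a / (1 - a)) ^ 2 :=
        mul_le_mul (h5.trans h6) h3 (by positivity) (by positivity)
    _ = Cn n a ^ 2 * (4 / 5 * a ^ 2 + 14 / 5 * a ^ 3) := by
        field_simp

end Helper85.CP
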