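import Pool.Agent.Helper85.CP.St

/-!
# Module GG of project CP (MP_3dd6d4_an): Cauchy–Schwarz for `∫ |p_n|`.
-/

set_option autoImplicit false

open MeasureTheory Set Filter Topology

noncomputable section

namespace Helper85.CP

open Helper69.CR

private lemma pp_cont_GG (n : ℕ) : Continuous (pp n) := by
  unfold pp
  fun_prop

private lemma log_GG (E : ℝ) (hE : 1 < E) :
    IntervalIntegrable (fun t : ℝ => 1 / (E ^ 2 - t)) volume 0 1 ∧
      ∫ t in (0 : ℝ)..1, 1 / (E ^ 2 - t) = Real.log (E ^ 2 / (E ^ 2 - 1)) := by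
  have hE2 : 1 < E ^ 2 := by nlinarith
  have hpos : ∀ t ∈ uIcc (0 : ℝ) 1, 0 < E ^ 2 - t := by
    intro t ht
    rw [uIcc_of_le zero_le_one] at ht
    linarith [ht.2]
  have hint : IntervalIntegrable (fun t : ℝ => 1 / (E ^ 2 - t)) volume 0 1 := by
    refine ContinuousOn.intervalIntegrable ?_
    intro t ht
    exact (continuousAt_const.div (continuousAt_const.sub continuousAt_id)
      (hpos t ht).ne').continuousWithinAt
  refine ⟨hint, ?_⟩
  have h := intervalIntegral.integral_eq_sub_of_hasDerivAt (a := 0) (b := 1)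
    (f := fun t : ℝ => -Real.log (E ^ 2 - t)) (f' := fun t : ℝ => 1 / (E ^ 2 - t))
    (by
      intro t ht
      have h1 : HasDerivAt (fun t : ℝ => E ^ 2 - t) (-1) t := by
        simpa using (hasDerivAt_id t).const_sub (E ^ 2)
      have h2 : HasDerivAt (fun t : ℝ => -Real.log (E ^ 2 - t)) (-(-1 / (E ^ 2 - t))) t :=
        (h1.log (hpos t ht).ne').neg
      have h3 : (1 : ℝ) / (E ^ 2 - t) = -(-1 / (E ^ 2 - t)) := by ring
      rw [h3]
      exact h2) hint
  rw [h, Real.log_div (by positivity) (by linarith)]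
  simp only [sub_zero]
  ring

/-- MODULE GG. -/
theorem hGG : StGG := by
  intro n E hE
  obtain ⟨hLi, hL⟩ := log_GG E hE
  have hE2 : 1 < E ^ 2 := by nlinarith
  set L : ℝ := Real.log (E ^ 2 / (E ^ 2 - 1)) with hLdef
  have hLpos : 0 < L := by
    refine Real.log_pos ?_
    rw [lt_div_iff₀ (by linarith)]
    linarith
  set A : ℝ := ∫ t in (0 : ℝ)..1, (E ^ 2 - t) * pp n t ^ 2 with hA
  set B : ℝ := ∫ t in (0 : ℝ)..1, |pp n t| with hB
  have hpos : ∀ t ∈ Icc (0 : ℝ) 1, 0 < E ^ 2 - t := by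
    intro t ht
    linarith [ht.2]
  have hcA : Continuous (fun t : ℝ => (E ^ 2 - t) * pp n t ^ 2) :=
    (continuous_const.sub continuous_id).mul ((pp_cont_GG n).pow 2)
  have hcB : Continuous (fun t : ℝ => |pp n t|) := (pp_cont_GG n).abs
  have key : ∀ l : ℝ, 0 ≤ A - 2 * l * B + l ^ 2 * L := by
    intro l
    have h1 : A - 2 * l * B + l ^ 2 * L =
        ∫ t in (0 : ℝ)..1, ((E ^ 2 - t) * pp n t ^ 2 - 2 * l * |pp n t| + l ^ 2 * (1 / (E ^ 2 - t))) := by
      rw [intervalIntegral.integral_add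
        ((hcA.intervalIntegrable 0 1).sub ((hcB.intervalIntegrable 0 1).const_mul _))
        (hLi.const_mul _), intervalIntegral.integral_sub (hcA.intervalIntegrable 0 1)
        ((hcB.intervalIntegrable 0 1).const_mul _), intervalIntegral.integral_const_mul,
        intervalIntegral.integral_const_mul, hL]
    rw [h1]
    refine intervalIntegral.integral_nonneg zero_le_one ?_
    intro t ht
    have hφ := hpos t ht
    have h2 : (E ^ 2 - t) * pp n t ^ 2 - 2 * l * |pp n t| + l ^ 2 * (1 / (E ^ 2 - t)) =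
        ((E ^ 2 - t) * |pp n t| - l) ^ 2 / (E ^ 2 - t) := by
      rw [← sq_abs (pp n t)]
      field_simp
      ring
    rw [h2]
    positivity
  have h3 := key (B / L)
  have h4 : A - 2 * (B / L) * B + (B / L) ^ 2 * L = A - B ^ 2 / L := by
    field_simp
    ring
  rw [h4] at h3
  have h5 : B ^ 2 / L ≤ A := by linarith
  rwa [div_le_iff₀ hLpos] at h5

end Helper85.CP
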