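import Pool.Agent.Helper85.CP.St

/-!
# MP_3dd6d4_an, project CP: module HA, the weighted Hardy inequality
-/

set_option autoImplicit false

open MeasureTheory Set Filter Topology

noncomputable section

namespace Helper85.CP

open Helper69.CR

private lemma pp_cont_HA (n : ℕ) : Continuous (pp n) := by
  unfold pp
  exact continuous_finsetSum _ fun i _ => continuous_const.mul (continuous_id.pow i)

private def kk_HA (E x : ℝ) : ℝ := 2 / (x ^ 2 * (E ^ 2 - x ^ 2))

private def YY_HA (E r : ℝ) : ℝ := ∫ x in r..1, kk_HA E x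

private def aa_HA (n : ℕ) (E x : ℝ) : ℝ := 2 * pp n (x ^ 2) ^ 2 * (E ^ 2 - x ^ 2)

private lemma phi_pos_HA {E x : ℝ} (hx0 : 0 < x) (hx : x < E) : 0 < E ^ 2 - x ^ 2 := by
  nlinarith

private lemma kk_cont_HA (E : ℝ) : ContinuousOn (kk_HA E) (Ioo 0 E) := by
  unfold kk_HA
  apply ContinuousOn.div continuousOn_const (by fun_prop)
  intro x hx
  have h1 := phi_pos_HA hx.1 hx.2
  have h2 : 0 < x ^ 2 := by
    have := hx.1
    positivity
  exact (mul_pos h2 h1).ne'

private lemma sub_HA {E r : ℝ} (hE : 1 < E) (hr : 0 < r) (hr1 : r < E) : uIcc r 1 ⊆ Ioo 0 E := by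
  intro x hx
  rcases le_total r 1 with h | h
  · rw [uIcc_of_le h] at hx
    exact ⟨lt_of_lt_of_le hr hx.1, lt_of_le_of_lt hx.2 hE⟩
  · rw [uIcc_of_ge h] at hx
    exact ⟨by linarith [hx.1], lt_of_le_of_lt hx.2 hr1⟩

private lemma kk_int_HA {E r : ℝ} (hE : 1 < E) (hr : 0 < r) (hr1 : r < E) :
    IntervalIntegrable (kk_HA E) volume r 1 :=
  ((kk_cont_HA E).mono (sub_HA hE hr hr1)).intervalIntegrable

private lemma YY_deriv_HA {E r : ℝ} (hE : 1 < E) (hr : 0 < r) (hr1 : r < E) :
    HasDerivAt (YY_HA E) (-kk_HA E r) r := by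
  unfold YY_HA
  refine intervalIntegral.integral_hasDerivAt_left (kk_int_HA hE hr hr1) ?_ ?_
  · exact (kk_cont_HA E).stronglyMeasurableAtFilter isOpen_Ioo r ⟨hr, hr1⟩
  · exact (kk_cont_HA E).continuousAt (isOpen_Ioo.mem_nhds ⟨hr, hr1⟩)

private lemma YY_nonneg_HA {E r : ℝ} (hE : 1 < E) (hr : 0 < r) (hr1 : r ≤ 1) : 0 ≤ YY_HA E r := by
  unfold YY_HA
  apply intervalIntegral.integral_nonneg hr1
  intro x hx
  unfold kk_HA
  have h1 : 0 < x := lt_of_lt_of_le hr hx.1
  have h2 := phi_pos_HA h1 (lt_of_le_of_lt hx.2 hE)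
  positivity

private lemma YY_bound_HA {E r : ℝ} (hE : 1 < E) (hr : 0 < r) (hr1 : r ≤ 1) :
    r * YY_HA E r ≤ 2 / (E ^ 2 - 1) := by
  have hE1 : 0 < E ^ 2 - 1 := by nlinarith
  have h1 : YY_HA E r ≤ ∫ x in r..1, 2 / (E ^ 2 - 1) * (x ^ 2)⁻¹ := by
    unfold YY_HA
    apply intervalIntegral.integral_mono_on hr1 (kk_int_HA hE hr (lt_of_le_of_lt hr1 hE))
    · apply ContinuousOn.intervalIntegrable
      rw [uIcc_of_le hr1]
      apply ContinuousOn.mul continuousOn_const
      apply ContinuousOn.inv₀ (by fun_prop)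
      intro x hx
      have : 0 < x := lt_of_lt_of_le hr hx.1
      positivity
    · intro x hx
      unfold kk_HA
      have hx0 : 0 < x := lt_of_lt_of_le hr hx.1
      have h2 := phi_pos_HA hx0 (lt_of_le_of_lt hx.2 hE)
      have h3 : E ^ 2 - 1 ≤ E ^ 2 - x ^ 2 := by nlinarith [hx.2]
      rw [show 2 / (E ^ 2 - 1) * (x ^ 2)⁻¹ = 2 / (x ^ 2 * (E ^ 2 - 1)) by
        field_simp]
      gcongr
  have h4 : ∫ x in r..1, 2 / (E ^ 2 - 1) * (x ^ 2)⁻¹ = 2 / (E ^ 2 - 1) * (1 / r - 1) := by
    rw [intervalIntegral.integral_const_mul]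
    congr 1
    have h5 : ∫ x in r..1, (x ^ 2)⁻¹ = -(1 : ℝ)⁻¹ - -r⁻¹ := by
      apply intervalIntegral.integral_eq_sub_of_hasDerivAt (f := fun x : ℝ => -x⁻¹)
        (f' := fun x : ℝ => (x ^ 2)⁻¹)
      · intro x hx
        rw [uIcc_of_le hr1] at hx
        have hx0 : x ≠ 0 := (lt_of_lt_of_le hr hx.1).ne'
        have h6 : HasDerivAt (fun y : ℝ => -y⁻¹) (-(-(x ^ 2)⁻¹)) x := (hasDerivAt_inv hx0).neg
        rwa [neg_neg] at h6
      · apply ContinuousOn.intervalIntegrable
        rw [uIcc_of_le hr1]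
        apply ContinuousOn.inv₀ (by fun_prop)
        intro x hx
        have : 0 < x := lt_of_lt_of_le hr hx.1
        positivity
    rw [h5]
    field_simp
    ring
  rw [h4] at h1
  calc r * YY_HA E r ≤ r * (2 / (E ^ 2 - 1) * (1 / r - 1)) := mul_le_mul_of_nonneg_left h1 hr.le
    _ = 2 / (E ^ 2 - 1) * (1 - r) := by
        field_simp
    _ ≤ 2 / (E ^ 2 - 1) * 1 := by
        gcongr
        linarith
    _ = _ := mul_one _

private lemma rY_cont_HA {E : ℝ} (hE : 1 < E) :
    ContinuousOn (fun r => 2 * r * YY_HA E r) (Ioo 0 E) := by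
  apply ContinuousOn.mul (by fun_prop)
  intro r hr
  exact (YY_deriv_HA hE hr.1 hr.2).continuousAt.continuousWithinAt

private lemma rY_int_HA {E : ℝ} (hE : 1 < E) :
    IntervalIntegrable (fun r => 2 * r * YY_HA E r) volume 0 1 := by
  rw [intervalIntegrable_iff_integrableOn_Ioc_of_le zero_le_one]
  have hc : IntegrableOn (fun _ : ℝ => 2 * (2 / (E ^ 2 - 1))) (Ioc 0 1) volume :=
    integrableOn_const (by simp)
  refine Integrable.mono' hc ?_ ?_
  · apply ContinuousOn.aestronglyMeasurable _ measurableSet_Ioc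
    exact (rY_cont_HA hE).mono fun x hx => ⟨hx.1, lt_of_le_of_lt hx.2 hE⟩
  · rw [ae_restrict_iff' measurableSet_Ioc]
    refine Eventually.of_forall fun r hr => ?_
    have h1 := YY_nonneg_HA hE hr.1 hr.2
    have h2 := YY_bound_HA hE hr.1 hr.2
    have h0 := hr.1
    rw [Real.norm_of_nonneg (by positivity)]
    linarith

private lemma FF_eq_HA (n : ℕ) {r : ℝ} (hr : 0 < r) (hr1 : r ≤ 1) :
    FF n (r ^ 2) = ∫ x in r..1, 2 * |pp n (x ^ 2)| / x := by
  have h := intervalIntegral.integral_comp_mul_deriv' (a := r) (b := 1)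
    (f := fun x : ℝ => x ^ 2) (f' := fun x : ℝ => 2 * x) (g := fun t => |pp n t| / t)
    (by
      intro x _
      simpa using hasDerivAt_pow 2 x)
    (by fun_prop)
    (by
      apply ContinuousOn.div
      · exact (pp_cont_HA n).abs.continuousOn
      · exact continuousOn_id
      · rintro _ ⟨x, hx, rfl⟩
        rw [uIcc_of_le hr1] at hx
        have : 0 < x := lt_of_lt_of_le hr hx.1
        simp only [ne_eq]
        positivity)
  simp only [one_pow] at h
  unfold FF
  rw [← h]
  apply intervalIntegral.integral_congr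
  intro x hx
  rw [uIcc_of_le hr1] at hx
  have : 0 < x := lt_of_lt_of_le hr hx.1
  simp only [Function.comp]
  field_simp

private lemma aa_cont_HA (n : ℕ) (E : ℝ) : Continuous (aa_HA n E) := by
  have := pp_cont_HA n
  unfold aa_HA
  fun_prop

private lemma cs_HA (n : ℕ) {E r : ℝ} (hE : 1 < E) (hr : 0 < r) (hr1 : r ≤ 1) :
    FF n (r ^ 2) ^ 2 ≤ (∫ x in r..1, aa_HA n E x) * YY_HA E r := by
  have hp := pp_cont_HA n
  have hc : IntervalIntegrable (fun x => 2 * |pp n (x ^ 2)| / x) volume r 1 := by
    apply ContinuousOn.intervalIntegrable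
    rw [uIcc_of_le hr1]
    apply ContinuousOn.div (by fun_prop) continuousOn_id
    intro x hx
    exact (lt_of_lt_of_le hr hx.1).ne'
  have ha : IntervalIntegrable (aa_HA n E) volume r 1 := (aa_cont_HA n E).intervalIntegrable _ _
  have hb := kk_int_HA hE hr (lt_of_le_of_lt hr1 hE)
  have key : ∀ t : ℝ, 0 ≤ (∫ x in r..1, aa_HA n E x) * (t * t) +
      (2 * ∫ x in r..1, 2 * |pp n (x ^ 2)| / x) * t + ∫ x in r..1, kk_HA E x := by
    intro t
    have h1 : (∫ x in r..1, aa_HA n E x) * (t * t) +
      (2 * ∫ x in r..1, 2 * |pp n (x ^ 2)| / x) * t + ∫ x in r..1, kk_HA E x =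
      ∫ x in r..1, (aa_HA n E x * (t * t) + (2 * |pp n (x ^ 2)| / x) * (2 * t) + kk_HA E x) := by
      rw [intervalIntegral.integral_add ((ha.mul_const _).add (hc.mul_const _)) hb,
        intervalIntegral.integral_add (ha.mul_const _) (hc.mul_const _),
        intervalIntegral.integral_mul_const, intervalIntegral.integral_mul_const]
      ring
    rw [h1]
    apply intervalIntegral.integral_nonneg hr1
    intro x hx
    have hx0 : 0 < x := lt_of_lt_of_le hr hx.1
    have h2 := phi_pos_HA hx0 (lt_of_le_of_lt hx.2 hE)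
    have h3 : aa_HA n E x * (t * t) + (2 * |pp n (x ^ 2)| / x) * (2 * t) + kk_HA E x =
        2 * (E ^ 2 - x ^ 2) * (t * |pp n (x ^ 2)| + 1 / (x * (E ^ 2 - x ^ 2))) ^ 2 := by
      unfold aa_HA kk_HA
      rw [← sq_abs (pp n (x ^ 2))]
      have h4 : E ^ 2 - x ^ 2 ≠ 0 := h2.ne'
      field_simp
      ring
    rw [h3]
    positivity
  have h5 := discrim_le_zero key
  unfold discrim at h5
  rw [FF_eq_HA n hr hr1]
  unfold YY_HA
  nlinarith

theorem hHA (hKF : StKF) : StHA := by
  intro n E μ hE hμ
  obtain ⟨k1, k2, k3, k4, -, -⟩ := hKF n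
  have hp := pp_cont_HA n
  have hμ' : ∀ τ : ℝ, 0 < τ → τ ≤ 1 → ∫ r in (0 : ℝ)..τ, 2 * r * YY_HA E r ≤ μ * τ := hμ
  set g : ℝ → ℝ := fun t => (E ^ 2 - t) * pp n t ^ 2 with hg
  have hgc : Continuous g := by
    rw [hg]
    fun_prop
  have hg0 : ∀ t ∈ Icc (0 : ℝ) 1, 0 ≤ g t := by
    intro t ht
    have : 0 ≤ E ^ 2 - t := by nlinarith [ht.2]
    simp only [hg]
    positivity
  have hμ0 : 0 ≤ μ := by
    have h1 := hμ' 1 one_pos le_rfl
    have h2 : 0 ≤ ∫ r in (0 : ℝ)..1, 2 * r * YY_HA E r := by
      rw [intervalIntegral.integral_of_le zero_le_one]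
      apply setIntegral_nonneg measurableSet_Ioc
      intro r hr
      have := YY_nonneg_HA hE hr.1 hr.2
      have h0 := hr.1
      positivity
    linarith
  -- the inequality on [e², 1]
  have main : ∀ e : ℝ, 0 < e → e < 1 → ∫ s in (e ^ 2)..1, FF n s ^ 2 ≤ μ * ∫ t in (0 : ℝ)..1, g t := by
    intro e he he1
    have hsub : uIcc e 1 ⊆ Ioo 0 E := sub_HA hE he (he1.trans hE)
    have s1 : ∫ s in (e ^ 2)..1, FF n s ^ 2 = ∫ r in e..1, FF n (r ^ 2) ^ 2 * (2 * r) := by
      have h := intervalIntegral.integral_comp_mul_deriv' (a := e) (b := 1)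
        (f := fun x : ℝ => x ^ 2) (f' := fun x : ℝ => 2 * x) (g := fun t => FF n t ^ 2)
        (by
          intro x _
          simpa using hasDerivAt_pow 2 x)
        (by fun_prop)
        (by
          apply (k2.pow 2).mono
          rintro _ ⟨x, hx, rfl⟩
          rw [uIcc_of_le he1.le] at hx
          have : 0 < x := lt_of_lt_of_le he hx.1
          refine ⟨by simp only; positivity, ?_⟩
          simp only
          nlinarith [hx.2])
      simp only [one_pow] at h
      rw [← h]
      rfl
    have cFF : ContinuousOn (fun r : ℝ => FF n (r ^ 2)) (uIcc e 1) := by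
      apply k2.comp (by fun_prop)
      intro x hx
      rw [uIcc_of_le he1.le] at hx
      have : 0 < x := lt_of_lt_of_le he hx.1
      refine ⟨by positivity, ?_⟩
      nlinarith [hx.2]
    have dH : ∀ r : ℝ, HasDerivAt (fun r => ∫ x in r..1, aa_HA n E x) (-aa_HA n E r) r := by
      intro r
      exact intervalIntegral.integral_hasDerivAt_left ((aa_cont_HA n E).intervalIntegrable _ _)
        ((aa_cont_HA n E).stronglyMeasurableAtFilter _ _) (aa_cont_HA n E).continuousAt
    have cY := (rY_cont_HA hE).mono hsub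
    have iY : IntervalIntegrable (fun r => 2 * r * YY_HA E r) volume e 1 := cY.intervalIntegrable
    have dW : ∀ t ∈ uIcc e 1, HasDerivAt (fun t => ∫ r in e..t, 2 * r * YY_HA E r)
        (2 * t * YY_HA E t) t := by
      intro t ht
      have ht' := hsub ht
      refine intervalIntegral.integral_hasDerivAt_right ?_ ?_ ?_
      · apply ContinuousOn.intervalIntegrable
        apply (rY_cont_HA hE).mono
        intro x hx
        rw [uIcc_of_le he1.le] at ht
        rw [uIcc_of_le ht.1] at hx
        exact ⟨lt_of_lt_of_le he hx.1, by linarith [hx.2, ht.2]⟩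
      · exact (rY_cont_HA hE).stronglyMeasurableAtFilter isOpen_Ioo t ht'
      · exact (rY_cont_HA hE).continuousAt (isOpen_Ioo.mem_nhds ht')
    have s2 : ∫ r in e..1, FF n (r ^ 2) ^ 2 * (2 * r) ≤
        ∫ r in e..1, (∫ x in r..1, aa_HA n E x) * (2 * r * YY_HA E r) := by
      apply intervalIntegral.integral_mono_on he1.le
      · apply ContinuousOn.intervalIntegrable
        exact (cFF.pow 2).mul (by fun_prop)
      · apply ContinuousOn.intervalIntegrable
        apply ContinuousOn.mul _ cY
        intro r _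
        exact (dH r).continuousAt.continuousWithinAt
      · intro r hr
        have hr0 : 0 < r := lt_of_lt_of_le he hr.1
        have := cs_HA n hE hr0 hr.2
        calc FF n (r ^ 2) ^ 2 * (2 * r) ≤ ((∫ x in r..1, aa_HA n E x) * YY_HA E r) * (2 * r) := by
              gcongr
          _ = _ := by ring
    have s3 : ∫ r in e..1, (∫ x in r..1, aa_HA n E x) * (2 * r * YY_HA E r) =
        ∫ t in e..1, aa_HA n E t * ∫ r in e..t, 2 * r * YY_HA E r := by
      have h := intervalIntegral.integral_mul_deriv_eq_deriv_mul (a := e) (b := 1)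
        (u := fun r => ∫ x in r..1, aa_HA n E x) (u' := fun r => -aa_HA n E r)
        (v := fun t => ∫ r in e..t, 2 * r * YY_HA E r) (v' := fun t => 2 * t * YY_HA E t)
        (fun r _ => dH r) dW ((aa_cont_HA n E).neg.intervalIntegrable _ _) iY
      rw [h]
      simp only [intervalIntegral.integral_same, mul_zero, zero_mul, sub_zero, zero_sub]
      rw [← intervalIntegral.integral_neg]
      apply intervalIntegral.integral_congr
      intro t _
      simp only
      ring
    have s4 : ∫ t in e..1, aa_HA n E t * (∫ r in e..t, 2 * r * YY_HA E r) ≤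
        ∫ t in e..1, aa_HA n E t * (μ * t) := by
      apply intervalIntegral.integral_mono_on he1.le
      · apply ContinuousOn.intervalIntegrable
        apply (aa_cont_HA n E).continuousOn.mul
        intro t ht
        exact (dW t ht).continuousAt.continuousWithinAt
      · apply Continuous.intervalIntegrable
        exact (aa_cont_HA n E).mul (by fun_prop)
      · intro t ht
        have ht0 : 0 < t := lt_of_lt_of_le he ht.1
        apply mul_le_mul_of_nonneg_left
        · have h1 := hμ' t ht0 ht.2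
          have i1 : IntervalIntegrable (fun r => 2 * r * YY_HA E r) volume 0 e := by
            apply (rY_int_HA hE).mono_set
            rw [uIcc_of_le he.le, uIcc_of_le zero_le_one]
            exact Icc_subset_Icc_right he1.le
          have i2 : IntervalIntegrable (fun r => 2 * r * YY_HA E r) volume e t := by
            apply (rY_int_HA hE).mono_set
            rw [uIcc_of_le ht.1, uIcc_of_le zero_le_one]
            exact Icc_subset_Icc he.le ht.2
          have h2 := intervalIntegral.integral_add_adjacent_intervals i1 i2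
          have h3 : 0 ≤ ∫ r in (0 : ℝ)..e, 2 * r * YY_HA E r := by
            rw [intervalIntegral.integral_of_le he.le]
            apply setIntegral_nonneg measurableSet_Ioc
            intro r hr
            have := YY_nonneg_HA hE hr.1 (hr.2.trans he1.le)
            have h0 := hr.1
            positivity
          linarith
        · unfold aa_HA
          have := phi_pos_HA ht0 (lt_of_le_of_lt ht.2 hE)
          positivity
    have s5 : ∫ t in e..1, aa_HA n E t * (μ * t) = μ * ∫ t in (e ^ 2)..1, g t := by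
      have h := intervalIntegral.integral_comp_mul_deriv' (a := e) (b := 1)
        (f := fun x : ℝ => x ^ 2) (f' := fun x : ℝ => 2 * x) (g := g)
        (by
          intro x _
          simpa using hasDerivAt_pow 2 x)
        (by fun_prop) hgc.continuousOn
      simp only [one_pow] at h
      rw [← h, ← intervalIntegral.integral_const_mul]
      apply intervalIntegral.integral_congr
      intro t _
      simp only [Function.comp, hg, aa_HA]
      ring
    have s6 : ∫ t in (e ^ 2)..1, g t ≤ ∫ t in (0 : ℝ)..1, g t := by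
      have h2 := intervalIntegral.integral_add_adjacent_intervals
        (hgc.intervalIntegrable (μ := volume) 0 (e ^ 2)) (hgc.intervalIntegrable (e ^ 2) 1)
      have h3 : 0 ≤ ∫ t in (0 : ℝ)..(e ^ 2), g t := by
        apply intervalIntegral.integral_nonneg (by positivity)
        intro t ht
        apply hg0 t ⟨ht.1, ht.2.trans _⟩
        nlinarith
      linarith
    calc ∫ s in (e ^ 2)..1, FF n s ^ 2 = _ := s1
      _ ≤ _ := s2
      _ = _ := s3
      _ ≤ _ := s4
      _ = _ := s5
      _ ≤ _ := mul_le_mul_of_nonneg_left s6 hμ0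
  -- the limit
  have hcont : ContinuousOn (fun x => ∫ s in x..1, FF n s ^ 2) (Icc 0 1) := by
    have h := intervalIntegral.continuousOn_primitive_interval_left
      (f := fun s => FF n s ^ 2) (μ := volume) (a := 0) (b := 1)
      (by
        have := k4.1
        rw [uIcc_of_le zero_le_one, integrableOn_Icc_iff_integrableOn_Ioc]
        exact this)
    rwa [uIcc_of_le zero_le_one] at h
  have h0 : Tendsto (fun x => ∫ s in x..1, FF n s ^ 2) (𝓝[>] 0) (𝓝 (∫ s in (0 : ℝ)..1, FF n s ^ 2)) := by
    have h1 := hcont 0 (left_mem_Icc.2 zero_le_one)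
    have h2 : 𝓝[Ioo 0 1] (0 : ℝ) ≤ 𝓝[Icc 0 1] 0 := nhdsWithin_mono _ Ioo_subset_Icc_self
    rw [nhdsWithin_Ioo_eq_nhdsGT zero_lt_one] at h2
    exact h1.tendsto.mono_left h2
  refine le_of_tendsto h0 ?_
  filter_upwards [Ioo_mem_nhdsGT (zero_lt_one (α := ℝ))] with x hx
  have h3 := main (√x) (Real.sqrt_pos.2 hx.1) (by
    rw [Real.sqrt_lt' one_pos]
    simpa using hx.2)
  rwa [Real.sq_sqrt hx.1.le] at h3

end Helper85.CP
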