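import Pool.Agent.Helper85.CP.St

set_option autoImplicit false

open MeasureTheory Set Filter Topology

namespace Helper85.CP

open Helper69.CR

private theorem cont_pp_K7 (n : ℕ) : Continuous (pp n) := by
  unfold pp
  fun_prop

private theorem log36_K7 : Real.log 36 ≤ 3.584 := by
  have h1 : (47 : ℕ) * Real.log 36 = Real.log (36 ^ 47) := by rw [Real.log_pow]
  have h2 : (243 : ℕ) * Real.log 2 = Real.log (2 ^ 243) := by rw [Real.log_pow]
  have h3 : Real.log (36 ^ 47) ≤ Real.log (2 ^ 243) := by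
    apply Real.log_le_log (by norm_num)
    norm_num
  rw [← h1, ← h2] at h3
  have h4 := Real.log_two_lt_d9
  push_cast at h3
  norm_num at h4 ⊢
  linarith

set_option exponentiation.threshold 2000 in
private theorem log141_K7 : Real.log 141 ≤ 4.949 := by
  have h1 : (93 : ℕ) * Real.log 141 = Real.log (141 ^ 93) := by rw [Real.log_pow]
  have h2 : (664 : ℕ) * Real.log 2 = Real.log (2 ^ 664) := by rw [Real.log_pow]
  have h3 : Real.log (141 ^ 93) ≤ Real.log (2 ^ 664) := by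
    apply Real.log_le_log (by norm_num)
    norm_num
  rw [← h1, ← h2] at h3
  have h4 := Real.log_two_lt_d9
  push_cast at h3
  norm_num at h4 ⊢
  linarith

private theorem tan_K7 (x x0 : ℝ) (hx : 0 < x) (hx0 : 0 < x0) :
    Real.log x ≤ Real.log x0 + (x - x0) / x0 := by
  have h := Real.log_le_sub_one_of_pos (div_pos hx hx0)
  rw [Real.log_div hx.ne' hx0.ne'] at h
  have e : (x - x0) / x0 = x / x0 - 1 := by field_simp
  linarith

theorem hK7 (h1 : StKF) (h2 : StMO) (h3 : StGG) (h4 : StHA) (h5 : StYB) : StK7 := by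
  intro n hn
  have hnr : (7 : ℝ) ≤ n := by exact_mod_cast hn
  have hn0 : (0 : ℝ) < n := by linarith
  obtain ⟨hFF0, -, -, -, -, hK⟩ := h1 n
  obtain ⟨m1, m2⟩ := h2
  have hm1 := m1 n
  have hm2 := m2 n
  set E : ℝ := 1 + 1 / (10 * n) with hE
  have hE1 : 1 < E := by rw [hE]; linarith [show (0 : ℝ) < 1 / (10 * n) by positivity]
  have hE2 : E ≤ 71 / 70 := by
    have : 1 / (10 * (n : ℝ)) ≤ 1 / 70 := by
      apply one_div_le_one_div_of_le (by norm_num); linarith
    rw [hE]; linarith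
  have hEsq : E ^ 2 - 1 = 1 / (5 * n) + 1 / (100 * n ^ 2) := by
    rw [hE]; field_simp; ring
  -- M
  have hM : ∫ t in (0 : ℝ)..1, (E ^ 2 - t) * pp n t ^ 2 = 7 * n / 10 + 1 / 100 := by
    have e : ∀ t, (E ^ 2 - t) * pp n t ^ 2 = (E ^ 2 - 1) * pp n t ^ 2 + (1 - t) * pp n t ^ 2 := by
      intro t; ring
    simp_rw [e]
    have c := cont_pp_K7 n
    rw [intervalIntegral.integral_add, intervalIntegral.integral_const_mul, hm1, hm2, hEsq]
    · field_simp; ring
    · exact (continuous_const.mul (c.pow 2)).intervalIntegrable 0 1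
    · exact ((continuous_const.sub continuous_id).mul (c.pow 2)).intervalIntegrable 0 1
  set M : ℝ := 7 * n / 10 + 1 / 100 with hMd
  have hM0 : 0 < M := by rw [hMd]; positivity
  have hG := h3 n E hE1
  rw [hM] at hG
  set I : ℝ := ∫ t in (0 : ℝ)..1, |pp n t| with hI
  have hI0 : 0 ≤ I := intervalIntegral.integral_nonneg zero_le_one fun t _ => abs_nonneg _
  have hℓ : Real.log (E ^ 2 / (E ^ 2 - 1)) ≤ Real.log (1 + 5 * n) := by
    have hp : 0 < E ^ 2 - 1 := by rw [hEsq]; positivity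
    apply Real.log_le_log (by positivity)
    have hge : 1 / (5 * (n : ℝ)) ≤ E ^ 2 - 1 := by
      rw [hEsq]; linarith [show (0 : ℝ) < 1 / (100 * (n : ℝ) ^ 2) by positivity]
    rw [div_le_iff₀ hp]
    have h6 : 1 ≤ 5 * n * (E ^ 2 - 1) := by
      calc (1 : ℝ) = 5 * n * (1 / (5 * n)) := by field_simp
        _ ≤ 5 * n * (E ^ 2 - 1) := by gcongr
    nlinarith
  set ℓ : ℝ := Real.log (1 + 5 * n) with hℓd
  have hIs : I ^ 2 ≤ M * ℓ := hG.trans (mul_le_mul_of_nonneg_left hℓ hM0.le)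
  have hℓ0 : 0 ≤ ℓ := Real.log_nonneg (by linarith)
  have h2I : 2 * I ≤ 171 / 200 * M + 200 / 171 * ℓ := by
    have hr : 0 ≤ 171 / 200 * M + 200 / 171 * ℓ := by positivity
    have hs : (2 * I) ^ 2 ≤ (171 / 200 * M + 200 / 171 * ℓ) ^ 2 := by
      nlinarith [sq_nonneg (171 / 200 * M - 200 / 171 * ℓ)]
    exact (abs_le_of_sq_le_sq' hs hr).2
  have hH := h4 n E (Real.log ((E + 1) / (E - 1)) + 1 / 2) hE1
    (fun τ ht0 ht1 => h5 E τ hE1 hE2 ht0 ht1)
  rw [hM] at hH
  have hfr : (E + 1) / (E - 1) = 20 * n + 1 := by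
    rw [hE]; field_simp; ring
  rw [hfr] at hH
  set L : ℝ := Real.log (20 * n + 1) with hL
  have b1 : ℓ ≤ 3.584 + 5 * (n - 7) / 36 := by
    have := tan_K7 (1 + 5 * n) 36 (by positivity) (by norm_num)
    have h6 := log36_K7
    rw [hℓd]
    have e : (1 + 5 * (n : ℝ) - 36) / 36 = 5 * (n - 7) / 36 := by ring
    linarith
  have b2 : L ≤ 4.949 + 20 * (n - 7) / 141 := by
    have := tan_K7 (20 * n + 1) 141 (by positivity) (by norm_num)
    have h6 := log141_K7
    rw [hL]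
    have e : (20 * (n : ℝ) + 1 - 141) / 141 = 20 * (n - 7) / 141 := by ring
    linarith
  have hML : M * (L + 1 / 2) ≤ M * (4.949 + 20 * (n - 7) / 141 + 1 / 2) := by gcongr
  rw [hK]
  have hfin : 1 + (171 / 200 * M + 200 / 171 * (3.584 + 5 * (n - 7) / 36)) +
      M * (4.949 + 20 * (n - 7) / 141 + 1 / 2) ≤ 4 / 5 * ((30 * (n : ℝ) + 1) / 31) ^ 2 := by
    rw [hMd]
    obtain ⟨t, ht⟩ : ∃ t : ℝ, (n : ℝ) = 7 + t := ⟨n - 7, by ring⟩
    have ht0 : 0 ≤ t := by linarith
    rw [ht]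
    norm_num
    nlinarith [mul_nonneg ht0 ht0]
  nlinarith

end Helper85.CP
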