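import Pool.Agent.Helper85.CP.St

/-!
# Module KE of project CP (MP_3dd6d4_an): the exponential form of `K2`.
-/

set_option autoImplicit false

open MeasureTheory Set Filter Topology

noncomputable section

namespace Helper85.CP

open Helper69.CR

private lemma pp_cont_KE (n : ℕ) : Continuous (pp n) := by
  unfold pp
  fun_prop

private lemma ppe_cont_KE (n : ℕ) : Continuous (fun u : ℝ => |pp n (Real.exp (-u))|) :=
  ((pp_cont_KE n).comp (Real.continuous_exp.comp continuous_neg)).abs

private lemma FF_exp_KE (n : ℕ) (τ : ℝ) :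
    FF n (Real.exp (-τ)) = ∫ u in (0 : ℝ)..τ, |pp n (Real.exp (-u))| := by
  unfold FF
  have h := intervalIntegral.integral_comp_mul_deriv'' (a := τ) (b := 0)
    (f := fun u : ℝ => Real.exp (-u)) (f' := fun u : ℝ => -Real.exp (-u))
    (g := fun t : ℝ => |pp n t| / t)
    (by fun_prop)
    (by
      intro x _
      have : HasDerivAt (fun u : ℝ => Real.exp (-u)) (-Real.exp (-x)) x := by
        have := (hasDerivAt_neg x).exp
        simpa using this
      exact this.hasDerivWithinAt)
    (by fun_prop)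
    (by
      intro t ht
      have ht0 : 0 < t := by
        obtain ⟨u, _, hu⟩ := ht
        rw [← hu]; exact Real.exp_pos _
      exact ((pp_cont_KE n).abs.continuousAt.div continuousAt_id ht0.ne').continuousWithinAt)
  simp only [neg_zero, Real.exp_zero] at h
  rw [← h, intervalIntegral.integral_symm, ← intervalIntegral.integral_neg]
  refine intervalIntegral.integral_congr ?_
  intro u _
  have he : Real.exp (-u) ≠ 0 := (Real.exp_pos _).ne'
  simp only [Function.comp]
  field_simp

/-- MODULE KE. -/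
theorem hKE : StKE := by
  intro n
  have hc := ppe_cont_KE n
  have hI : Continuous (fun τ : ℝ => ∫ u in (0 : ℝ)..τ, |pp n (Real.exp (-u))|) :=
    intervalIntegral.continuous_primitive (fun a b => hc.intervalIntegrable a b) 0
  refine ⟨fun τ _ => FF_exp_KE n τ, ?_, ?_⟩
  · -- a bound of `pp` on `[0,1]`
    obtain ⟨C, hC⟩ := isCompact_Icc.exists_bound_of_continuousOn
      ((pp_cont_KE n).continuousOn (s := Icc (0 : ℝ) 1))
    have hC0 : 0 ≤ C := le_trans (norm_nonneg _) (hC 0 ⟨le_rfl, zero_le_one⟩)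
    have hF : ∀ τ : ℝ, 0 ≤ τ → 0 ≤ (∫ u in (0 : ℝ)..τ, |pp n (Real.exp (-u))|) ∧
        (∫ u in (0 : ℝ)..τ, |pp n (Real.exp (-u))|) ≤ C * τ := by
      intro τ hτ
      refine ⟨intervalIntegral.integral_nonneg hτ (fun _ _ => abs_nonneg _), ?_⟩
      have h1 : (∫ u in (0 : ℝ)..τ, |pp n (Real.exp (-u))|) ≤ ∫ u in (0 : ℝ)..τ, C := by
        refine intervalIntegral.integral_mono_on hτ (hc.intervalIntegrable _ _)
          (continuous_const.intervalIntegrable _ _) ?_
        intro u hu
        have := hC (Real.exp (-u)) ⟨(Real.exp_pos _).le, Real.exp_le_one_iff.2 (by linarith [hu.1])⟩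
        simpa [Real.norm_eq_abs] using this
      rw [intervalIntegral.integral_const] at h1
      simpa [mul_comm] using h1
    have hcont : Continuous (fun τ : ℝ => Real.exp (-τ) *
        (1 + ∫ u in (0 : ℝ)..τ, |pp n (Real.exp (-u))|) ^ 2) := by fun_prop
    have hdom : IntegrableOn (fun τ : ℝ => (16 * (1 + C) ^ 2) * Real.exp (-(1 / 2) * τ)) (Ioi 0) :=
      (exp_neg_integrableOn_Ioi 0 (by norm_num : (0 : ℝ) < 1 / 2)).const_mul _
    refine Integrable.mono' hdom hcont.aestronglyMeasurable ?_
    refine (ae_restrict_iff' measurableSet_Ioi).2 (Filter.Eventually.of_forall ?_)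
    intro τ hτ
    have hτ0 : 0 ≤ τ := le_of_lt hτ
    obtain ⟨h0, h1⟩ := hF τ hτ0
    rw [Real.norm_eq_abs, abs_of_nonneg (by positivity)]
    have h2 : 1 + (∫ u in (0 : ℝ)..τ, |pp n (Real.exp (-u))|) ≤ (1 + C) * (4 * Real.exp (τ / 4)) := by
      have h3 : τ / 4 + 1 ≤ Real.exp (τ / 4) := Real.add_one_le_exp _
      have h4 : 1 + τ ≤ 4 * Real.exp (τ / 4) := by linarith
      calc 1 + (∫ u in (0 : ℝ)..τ, |pp n (Real.exp (-u))|) ≤ 1 + C * τ := by linarith
        _ ≤ (1 + C) * (1 + τ) := by nlinarith
        _ ≤ (1 + C) * (4 * Real.exp (τ / 4)) := by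
          exact mul_le_mul_of_nonneg_left h4 (by linarith)
    have h5 : (1 + ∫ u in (0 : ℝ)..τ, |pp n (Real.exp (-u))|) ^ 2 ≤
        ((1 + C) * (4 * Real.exp (τ / 4))) ^ 2 := by
      exact pow_le_pow_left₀ (by linarith) h2 2
    calc Real.exp (-τ) * (1 + ∫ u in (0 : ℝ)..τ, |pp n (Real.exp (-u))|) ^ 2
        ≤ Real.exp (-τ) * ((1 + C) * (4 * Real.exp (τ / 4))) ^ 2 :=
          mul_le_mul_of_nonneg_left h5 (Real.exp_pos _).le
      _ = (16 * (1 + C) ^ 2) * (Real.exp (-τ) * (Real.exp (τ / 4) * Real.exp (τ / 4))) := by ring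
      _ = (16 * (1 + C) ^ 2) * Real.exp (-(1 / 2) * τ) := by
          rw [← Real.exp_add, ← Real.exp_add]
          congr 2
          ring
  · -- change of variables
    have himg : (fun τ : ℝ => Real.exp (-τ)) '' Ioi 0 = Ioo 0 1 := by
      ext s
      constructor
      · rintro ⟨τ, hτ, rfl⟩
        exact ⟨Real.exp_pos _, Real.exp_lt_one_iff.2 (by simpa using hτ)⟩
      · rintro ⟨h0, h1⟩
        refine ⟨-Real.log s, ?_, ?_⟩
        · simpa using Real.log_neg h0 h1
        · simp only [neg_neg]
          exact Real.exp_log h0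
    have h := integral_image_eq_integral_abs_deriv_smul (s := Ioi (0 : ℝ))
      (f := fun τ : ℝ => Real.exp (-τ)) (f' := fun τ : ℝ => -Real.exp (-τ)) measurableSet_Ioi
      (by
        intro x _
        have : HasDerivAt (fun u : ℝ => Real.exp (-u)) (-Real.exp (-x)) x := by
          have := (hasDerivAt_neg x).exp
          simpa using this
        exact this.hasDerivWithinAt)
      (by
        intro x _ y _ hxy
        have := Real.exp_injective hxy
        linarith)
      (fun s : ℝ => (1 + FF n s) ^ 2)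
    rw [himg] at h
    unfold K2
    rw [intervalIntegral.integral_of_le zero_le_one, integral_Ioc_eq_integral_Ioo, h]
    refine setIntegral_congr_fun measurableSet_Ioi ?_
    intro τ _
    simp only [abs_neg, smul_eq_mul, abs_of_pos (Real.exp_pos _)]
    rw [FF_exp_KE]

end Helper85.CP
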