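import Pool.Agent.Helper85.CP.St

set_option autoImplicit false

open MeasureTheory Set Filter Topology

namespace Helper85.CP

open Helper69.CR

private theorem cont_pp_KF (n : ℕ) : Continuous (pp n) := by
  unfold pp
  fun_prop

private theorem contOn_KF (n : ℕ) (δ : ℝ) (hδ : 0 < δ) :
    ContinuousOn (fun t : ℝ => |pp n t| / t) (Icc δ 1) := by
  apply ContinuousOn.div ((cont_pp_KF n).abs.continuousOn) continuousOn_id
  intro t ht
  exact (lt_of_lt_of_le hδ ht.1).ne'

private theorem ii_KF (n : ℕ) (δ : ℝ) (hδ : 0 < δ) (hδ1 : δ ≤ 1) :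
    IntervalIntegrable (fun t : ℝ => |pp n t| / t) volume δ 1 := by
  apply ContinuousOn.intervalIntegrable
  rw [uIcc_of_le hδ1]
  exact contOn_KF n δ hδ

private theorem FF_nonneg_KF (n : ℕ) (s : ℝ) (hs : 0 < s) (hs1 : s ≤ 1) : 0 ≤ FF n s := by
  unfold FF
  apply intervalIntegral.integral_nonneg hs1
  intro t ht
  exact div_nonneg (abs_nonneg _) (hs.le.trans ht.1)

private theorem bound_KF (n : ℕ) : ∃ C : ℝ, 0 ≤ C ∧ ∀ t ∈ Icc (0 : ℝ) 1, |pp n t| ≤ C := by
  obtain ⟨C, hC⟩ := isCompact_Icc.exists_bound_of_continuousOn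
    ((cont_pp_KF n).continuousOn (s := Icc (0 : ℝ) 1))
  refine ⟨C, ?_, fun t ht => by simpa using hC t ht⟩
  exact (norm_nonneg _).trans (hC 0 (by simp))

private theorem FF_le_KF (n : ℕ) (C : ℝ) (hC0 : 0 ≤ C) (hC : ∀ t ∈ Icc (0 : ℝ) 1, |pp n t| ≤ C)
    (s : ℝ) (hs : 0 < s) (hs1 : s ≤ 1) : FF n s ≤ 4 * C * s ^ (-(1 / 4) : ℝ) := by
  have h1 : FF n s ≤ ∫ t in s..1, C * t⁻¹ := by
    unfold FF
    apply intervalIntegral.integral_mono_on hs1 (ii_KF n s hs hs1)
    · apply ContinuousOn.intervalIntegrable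
      rw [uIcc_of_le hs1]
      apply ContinuousOn.mul continuousOn_const
      apply ContinuousOn.inv₀ continuousOn_id
      intro t ht
      exact (lt_of_lt_of_le hs ht.1).ne'
    · intro t ht
      have ht0 : 0 < t := lt_of_lt_of_le hs ht.1
      rw [div_eq_mul_inv]
      exact mul_le_mul_of_nonneg_right (hC t ⟨ht0.le, ht.2⟩) (by positivity)
  have h2 : ∫ t in s..1, C * t⁻¹ = C * (-Real.log s) := by
    rw [intervalIntegral.integral_const_mul, integral_inv_of_pos hs one_pos, one_div, Real.log_inv]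
  have h3 : -Real.log s ≤ 4 * s ^ (-(1 / 4) : ℝ) := by
    have h := Real.log_le_rpow_div (x := s⁻¹) (by positivity) (ε := 1 / 4) (by norm_num)
    rw [Real.log_inv, Real.inv_rpow hs.le, ← Real.rpow_neg hs.le] at h
    linarith
  calc FF n s ≤ C * (-Real.log s) := by rw [← h2]; exact h1
    _ ≤ C * (4 * s ^ (-(1 / 4) : ℝ)) := mul_le_mul_of_nonneg_left h3 hC0
    _ = 4 * C * s ^ (-(1 / 4) : ℝ) := by ring

private theorem FF_cont_KF (n : ℕ) : ContinuousOn (FF n) (Ioc 0 1) := by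
  intro s hs
  have hδ : 0 < s / 2 := by linarith [hs.1]
  have hδ1 : s / 2 ≤ 1 := by linarith [hs.2, hs.1]
  have h := intervalIntegral.continuousOn_primitive_interval_left (μ := volume) (a := s / 2) (b := 1)
    (f := fun t : ℝ => |pp n t| / t) (by
      rw [uIcc_of_le hδ1]
      exact (contOn_KF n (s / 2) hδ).integrableOn_Icc)
  rw [uIcc_of_le hδ1] at h
  have h1 := h s ⟨by linarith [hs.1], hs.2⟩
  unfold FF
  apply h1.mono_of_mem_nhdsWithin
  have h2 : Ioi (s / 2) ∈ 𝓝 s := Ioi_mem_nhds (by linarith [hs.1])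
  filter_upwards [mem_nhdsWithin_of_mem_nhds h2, self_mem_nhdsWithin] with x hx hx2
  exact ⟨le_of_lt hx, hx2.2⟩

private theorem FF_int_KF (n : ℕ) : IntervalIntegrable (FF n) volume 0 1 := by
  obtain ⟨C, hC0, hC⟩ := bound_KF n
  have hr : IntervalIntegrable (fun s : ℝ => 4 * C * s ^ (-(1 / 4) : ℝ)) volume 0 1 :=
    (intervalIntegral.intervalIntegrable_rpow' (by norm_num)).const_mul _
  rw [intervalIntegrable_iff_integrableOn_Ioc_of_le zero_le_one] at hr ⊢
  apply Integrable.mono' hr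
  · exact (FF_cont_KF n).aestronglyMeasurable measurableSet_Ioc
  · filter_upwards [ae_restrict_mem measurableSet_Ioc] with s hs
    rw [Real.norm_of_nonneg (FF_nonneg_KF n s hs.1 hs.2)]
    exact FF_le_KF n C hC0 hC s hs.1 hs.2

private theorem FF2_int_KF (n : ℕ) : IntervalIntegrable (fun s => FF n s ^ 2) volume 0 1 := by
  obtain ⟨C, hC0, hC⟩ := bound_KF n
  have hr : IntervalIntegrable (fun s : ℝ => 16 * C ^ 2 * s ^ (-(1 / 2) : ℝ)) volume 0 1 :=
    (intervalIntegral.intervalIntegrable_rpow' (by norm_num)).const_mul _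
  rw [intervalIntegrable_iff_integrableOn_Ioc_of_le zero_le_one] at hr ⊢
  apply Integrable.mono' hr
  · exact ((FF_cont_KF n).pow 2).aestronglyMeasurable measurableSet_Ioc
  · filter_upwards [ae_restrict_mem measurableSet_Ioc] with s hs
    have h0 := FF_nonneg_KF n s hs.1 hs.2
    have h1 := FF_le_KF n C hC0 hC s hs.1 hs.2
    rw [Real.norm_of_nonneg (by positivity)]
    calc FF n s ^ 2 ≤ (4 * C * s ^ (-(1 / 4) : ℝ)) ^ 2 := by gcongr
      _ = 16 * C ^ 2 * s ^ (-(1 / 2) : ℝ) := by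
        rw [mul_pow, mul_pow, ← Real.rpow_natCast (s ^ (-(1 / 4) : ℝ)) 2, ← Real.rpow_mul hs.1.le]
        norm_num

private theorem FF_deriv_KF (n : ℕ) (s : ℝ) (hs : s ∈ Ioo (0 : ℝ) 1) :
    HasDerivAt (FF n) (-(|pp n s| / s)) s := by
  unfold FF
  have hc : ContinuousAt (fun t : ℝ => |pp n t| / t) s :=
    ((cont_pp_KF n).abs.continuousAt).div continuousAt_id hs.1.ne'
  apply intervalIntegral.integral_hasDerivAt_left (ii_KF n s hs.1 hs.2.le) _ hc
  have hco : ContinuousOn (fun t : ℝ => |pp n t| / t) (Ioi 0) := by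
    apply ContinuousOn.div ((cont_pp_KF n).abs.continuousOn) continuousOn_id
    intro t ht
    exact (ne_of_gt ht)
  exact hco.stronglyMeasurableAtFilter isOpen_Ioi s hs.1

private theorem FF_parts_KF (n : ℕ) :
    ∫ s in (0 : ℝ)..1, FF n s = ∫ t in (0 : ℝ)..1, |pp n t| := by
  obtain ⟨C, hC0, hC⟩ := bound_KF n
  have hpi : IntervalIntegrable (fun t => |pp n t|) volume 0 1 :=
    (cont_pp_KF n).abs.intervalIntegrable _ _
  have hint : IntervalIntegrable (fun s => FF n s - |pp n s|) volume 0 1 := (FF_int_KF n).sub hpi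
  have hd : ∀ x ∈ Ioo (0 : ℝ) 1, HasDerivAt (fun s => s * FF n s) (FF n x - |pp n x|) x := by
    intro x hx
    have h := (hasDerivAt_id x).mul (FF_deriv_KF n x hx)
    have e : 1 * FF n x + id x * -(|pp n x| / x) = FF n x - |pp n x| := by
      have hx0 : x ≠ 0 := hx.1.ne'
      simp only [id]
      field_simp
      ring
    rw [← e]
    exact h
  have ha : Tendsto (fun s => s * FF n s) (𝓝[>] (0 : ℝ)) (𝓝 0) := by
    have hb : Tendsto (fun s : ℝ => 4 * C * s ^ (3 / 4 : ℝ)) (𝓝[>] (0 : ℝ)) (𝓝 0) := by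
      have h1 : Tendsto (fun s : ℝ => s ^ (3 / 4 : ℝ)) (𝓝 0) (𝓝 0) := by
        have := (Real.continuousAt_rpow_const 0 (3 / 4 : ℝ) (Or.inr (by norm_num))).tendsto
        rwa [Real.zero_rpow (by norm_num)] at this
      have h2 := (h1.const_mul (4 * C)).mono_left (nhdsWithin_le_nhds (s := Ioi (0 : ℝ)))
      rwa [mul_zero] at h2
    apply squeeze_zero' _ _ hb
    · have : Ioc (0 : ℝ) 1 ∈ 𝓝[>] (0 : ℝ) := Ioc_mem_nhdsGT one_pos
      filter_upwards [this] with s hs
      exact mul_nonneg hs.1.le (FF_nonneg_KF n s hs.1 hs.2)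
    · have : Ioc (0 : ℝ) 1 ∈ 𝓝[>] (0 : ℝ) := Ioc_mem_nhdsGT one_pos
      filter_upwards [this] with s hs
      have h1 := FF_le_KF n C hC0 hC s hs.1 hs.2
      calc s * FF n s ≤ s * (4 * C * s ^ (-(1 / 4) : ℝ)) := mul_le_mul_of_nonneg_left h1 hs.1.le
        _ = 4 * C * (s ^ (1 : ℝ) * s ^ (-(1 / 4) : ℝ)) := by rw [Real.rpow_one]; ring
        _ = 4 * C * s ^ (3 / 4 : ℝ) := by rw [← Real.rpow_add hs.1]; norm_num
  have hb : Tendsto (fun s => s * FF n s) (𝓝[<] (1 : ℝ)) (𝓝 0) := by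
    have h1 : ContinuousWithinAt (FF n) (Ioc 0 1) 1 := FF_cont_KF n 1 ⟨one_pos, le_rfl⟩
    have h2 : FF n 1 = 0 := by unfold FF; exact intervalIntegral.integral_same
    have h3 : Tendsto (FF n) (𝓝[<] (1 : ℝ)) (𝓝 0) := by
      have h4 := h1.tendsto
      rw [h2] at h4
      apply h4.mono_left
      rw [nhdsWithin_le_iff]
      have : Ioo (0 : ℝ) 1 ∈ 𝓝[<] (1 : ℝ) := Ioo_mem_nhdsLT one_pos
      filter_upwards [this] with x hx
      exact ⟨hx.1, hx.2.le⟩
    have h5 : Tendsto (fun s : ℝ => s) (𝓝[<] (1 : ℝ)) (𝓝 1) :=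
      tendsto_id.mono_left nhdsWithin_le_nhds
    have h6 := h5.mul h3
    rwa [mul_zero] at h6
  have h := intervalIntegral.integral_eq_sub_of_hasDerivAt_of_tendsto one_pos hd hint ha hb
  rw [intervalIntegral.integral_sub (FF_int_KF n) hpi] at h
  linarith

theorem hKF : StKF := by
  intro n
  refine ⟨FF_nonneg_KF n, FF_cont_KF n, FF_int_KF n, FF2_int_KF n, FF_parts_KF n, ?_⟩
  unfold K2
  have e : ∀ s, (1 + FF n s) ^ 2 = 1 + 2 * FF n s + FF n s ^ 2 := fun s => by ring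
  simp_rw [e]
  have h1 : IntervalIntegrable (fun _ : ℝ => (1 : ℝ)) volume 0 1 := intervalIntegrable_const
  have h2 : IntervalIntegrable (fun s => 2 * FF n s) volume 0 1 := (FF_int_KF n).const_mul 2
  rw [intervalIntegral.integral_add (h1.add h2) (FF2_int_KF n), intervalIntegral.integral_add h1 h2,
    intervalIntegral.integral_const_mul, FF_parts_KF n, intervalIntegral.integral_const]
  norm_num

end Helper85.CP
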