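import Pool.Agent.Helper85.CP.St
import Pool.Agent.Helper69.CR.M_A1
import Pool.Agent.Helper69.CR.M_A2
import Pool.Agent.Helper69.CR.M_PF
import Pool.Agent.Helper69.CR.M_KR

/-!
# MP_3dd6d4_an, project CP, module MO: the two moments of `p_n^2`
-/

set_option autoImplicit false

open MeasureTheory Set Filter Topology

noncomputable section

namespace Helper85.CP

open Helper69.CR

private lemma mono_MO (n i : ℕ) :
    ∫ x in (0 : ℝ)..1, pp n x * x ^ i = ∑ j ∈ Finset.range n, pc n j / ((i : ℝ) + j + 1) := by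
  unfold pp
  simp only [Finset.sum_mul]
  rw [intervalIntegral.integral_finsetSum]
  · refine Finset.sum_congr rfl fun j _ => ?_
    have h1 : (fun x : ℝ => pc n j * x ^ j * x ^ i) = fun x => pc n j * x ^ (j + i) := by
      ext x
      ring
    rw [h1, intervalIntegral.integral_const_mul, integral_pow]
    have h2 : ((j + i : ℕ) : ℝ) + 1 ≠ 0 := by positivity
    have h3 : (i : ℝ) + j + 1 ≠ 0 := by positivity
    have h4 : ((j + i : ℕ) : ℝ) + 1 = (i : ℝ) + j + 1 := by
      push_cast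
      ring
    rw [h4, one_pow, zero_pow (by omega), sub_zero, mul_one_div]
  · intro j _
    exact (Continuous.intervalIntegrable (by fun_prop) _ _)

private lemma low_MO (n i : ℕ) (h : i < n) :
    ∫ x in (0 : ℝ)..1, pp n x * x ^ i = (-1) ^ (n + 1) := by
  rw [mono_MO, (hA2 hKR).1 n i h]

private lemma asc_MO (n : ℕ) : (∏ k ∈ Finset.range n, ((k : ℝ) + 1 - (n + 1)) / (k + (n + 1))) *
    (2 * n).factorial = (-1) ^ n * (n.factorial : ℝ) * n.factorial := by
  have h1 : ∏ k ∈ Finset.range n, ((k : ℝ) + 1 - (n + 1)) = (-1) ^ n * (n.factorial : ℝ) := by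
    rw [← Finset.prod_range_reflect]
    have h1 : ∀ j ∈ Finset.range n, (((n - 1 - j : ℕ) : ℝ) + 1 - (n + 1)) =
        (-1) * (((j + 1 : ℕ)) : ℝ) := by
      intro j hj
      have hj' : j < n := Finset.mem_range.1 hj
      have h2 : ((n - 1 - j : ℕ) : ℝ) = (n : ℝ) - 1 - j := by
        rw [Nat.cast_sub (by omega), Nat.cast_sub (by omega)]
        push_cast
        ring
      rw [h2]
      push_cast
      ring
    rw [Finset.prod_congr rfl h1, Finset.prod_mul_distrib, Finset.prod_const, Finset.card_range,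
      ← Nat.cast_prod, Finset.prod_range_add_one_eq_factorial]
  have h2 : (∏ k ∈ Finset.range n, ((k : ℝ) + (n + 1))) * (n.factorial : ℝ) =
      (2 * n).factorial := by
    have h3 := Nat.factorial_mul_ascFactorial n n
    rw [Nat.ascFactorial_eq_prod_range] at h3
    have h4 : ((n.factorial * ∏ i ∈ Finset.range n, (n + 1 + i) : ℕ) : ℝ) = ((n + n).factorial : ℕ) := by
      rw [h3]
    rw [two_mul, ← h4]
    push_cast
    rw [mul_comm]
    congr 1
    refine Finset.prod_congr rfl fun k _ => by ring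
  rw [Finset.prod_div_distrib, h1, ← h2]
  have h5 : (∏ k ∈ Finset.range n, ((k : ℝ) + (n + 1))) ≠ 0 :=
    Finset.prod_ne_zero_iff.2 fun k _ => by positivity
  field_simp

private lemma top_MO (n : ℕ) :
    ∫ x in (0 : ℝ)..1, pp n x * x ^ n = (-1) ^ (n + 1) +
      ∏ k ∈ Finset.range n, ((k : ℝ) + 1 - (n + 1)) / (k + (n + 1)) := by
  rw [mono_MO]
  have h1 := hPF.1 n ((n : ℂ) + 1) (by
    simp only [Complex.add_re, Complex.natCast_re, Complex.one_re]
    positivity)
  have h2 : mm n ((n : ℂ) + 1) =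
      ((∏ k ∈ Finset.range n, ((k : ℝ) + 1 - (n + 1)) / (k + (n + 1)) : ℝ) : ℂ) := by
    unfold mm
    push_cast
    rfl
  rw [h2] at h1
  have h3 : (-1 : ℂ) ^ n + ∑ i ∈ Finset.range n, ((pc n i : ℝ) : ℂ) / ((n : ℂ) + 1 + i) =
      (((-1) ^ n + ∑ j ∈ Finset.range n, pc n j / ((n : ℝ) + j + 1) : ℝ) : ℂ) := by
    push_cast
    congr 1
    refine Finset.sum_congr rfl fun i _ => ?_
    congr 1
    ring
  rw [h3] at h1
  have h4 := Complex.ofReal_injective h1
  rw [h4]
  ring

private lemma cn_MO (n : ℕ) (hn : 1 ≤ n) :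
    pc n (n - 1) * ∏ k ∈ Finset.range n, ((k : ℝ) + 1 - (n + 1)) / (k + (n + 1)) = -(n : ℝ) / 2 := by
  obtain ⟨m, rfl⟩ : ∃ m, n = m + 1 := ⟨n - 1, by omega⟩
  have h1 := asc_MO (m + 1)
  set Q : ℝ := ∏ k ∈ Finset.range (m + 1), ((k : ℝ) + 1 - (((m + 1 : ℕ) : ℝ) + 1)) /
    (k + (((m + 1 : ℕ) : ℝ) + 1)) with hQ
  have h2 : pc (m + 1) m = (-1) ^ m * ((2 * m + 1).factorial : ℝ) / ((m.factorial : ℝ) ^ 2) := by
    unfold pc
    rw [show m + 1 + m = 2 * m + 1 by ring, show m + 1 - 1 - m = 0 by omega]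
    simp
  rw [show m + 1 - 1 = m by omega, h2]
  have h3 : (((2 * (m + 1)).factorial : ℕ) : ℝ) = (2 * m + 2) * ((2 * m + 1).factorial : ℕ) := by
    rw [show 2 * (m + 1) = (2 * m + 1) + 1 by ring, Nat.factorial_succ]
    push_cast
    ring
  have h4 : (((m + 1).factorial : ℕ) : ℝ) = (m + 1) * (m.factorial : ℕ) := by
    rw [Nat.factorial_succ]
    push_cast
    ring
  rw [h3, h4] at h1
  have h5 : (m.factorial : ℝ) ≠ 0 := by positivity
  have h6 : (((2 * m + 1).factorial : ℕ) : ℝ) ≠ 0 := by positivity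
  have h7 : (m : ℝ) + 1 ≠ 0 := by positivity
  have h8 : Q * ((2 * m + 1).factorial : ℕ) * 2 = (-1) ^ (m + 1) * (m + 1) * (m.factorial : ℝ) ^ 2 := by
    have h9 : ((m : ℝ) + 1) * (Q * ((2 * m + 1).factorial : ℕ) * 2) =
        ((m : ℝ) + 1) * ((-1) ^ (m + 1) * (m + 1) * (m.factorial : ℝ) ^ 2) := by
      linear_combination h1
    exact mul_left_cancel₀ h7 h9
  have h10 : ((-1 : ℝ)) ^ m * (-1) ^ m = 1 := by
    rw [← mul_pow]
    norm_num
  rw [div_mul_eq_mul_div, div_eq_div_iff (by positivity) (by norm_num)]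
  push_cast
  rw [pow_succ] at h8
  linear_combination ((-1 : ℝ)) ^ m * h8 - ((m : ℝ) + 1) * (m.factorial : ℝ) ^ 2 * h10

private lemma one_MO (n : ℕ) :
    ∑ j ∈ Finset.range n, (2 * (j : ℝ) + 1) * LL j 1 = (-1) ^ (n + 1) * (n : ℝ) := by
  rcases Nat.eq_zero_or_pos n with h0 | hn
  · subst h0
    simp
  have h1 := hA1 n 1 0
  have h2 : ∀ j, LL j 0 = 1 := by
    intro j
    unfold LL
    rw [Finset.sum_range_succ']
    have h3 : ∑ k ∈ Finset.range j, lc j (k + 1) * (0 : ℝ) ^ (k + 1) = 0 :=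
      Finset.sum_eq_zero fun k _ => by simp
    rw [h3]
    unfold lc
    have h4 : (j.factorial : ℝ) ≠ 0 := by positivity
    simp [h4]
  have h3 : pp n 0 = n := by
    obtain ⟨m, rfl⟩ : ∃ m, n = m + 1 := ⟨n - 1, by omega⟩
    unfold pp
    rw [Finset.sum_range_succ']
    have h3 : ∑ k ∈ Finset.range m, pc (m + 1) (k + 1) * (0 : ℝ) ^ (k + 1) = 0 :=
      Finset.sum_eq_zero fun k _ => by simp
    rw [h3]
    unfold pc
    have h4 : (m.factorial : ℝ) ≠ 0 := by positivity
    have h5 : (((m + 1).factorial : ℕ) : ℝ) = (m + 1) * (m.factorial : ℕ) := by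
      rw [Nat.factorial_succ]
      push_cast
      ring
    simp only [pow_zero, Nat.factorial_zero, add_zero, Nat.cast_one, one_pow, one_mul, mul_one,
      zero_add, Nat.add_sub_cancel, Nat.sub_zero]
    rw [h5]
    field_simp
    push_cast
    ring
  have h4 : ∫ x in (0 : ℝ)..1, pp n (1 * x) * pp n (0 * x) = (-1) ^ (n + 1) * (n : ℝ) := by
    have h5 : (fun x : ℝ => pp n (1 * x) * pp n (0 * x)) = fun x => (n : ℝ) * (pp n x * x ^ 0) := by
      ext x
      rw [one_mul, zero_mul, h3, pow_zero]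
      ring
    rw [h5, intervalIntegral.integral_const_mul, low_MO n 0 hn]
    ring
  rw [← h4, h1]
  refine Finset.sum_congr rfl fun j _ => ?_
  rw [h2 j, mul_one]

private lemma LL_one_MO (n : ℕ) : LL n 1 = (-1) ^ n := by
  have h1 := one_MO (n + 1)
  rw [Finset.sum_range_succ, one_MO n] at h1
  have h2 : (2 * (n : ℝ) + 1) * LL n 1 = (2 * (n : ℝ) + 1) * (-1) ^ n := by
    push_cast at h1
    rw [pow_succ, pow_succ] at h1
    linear_combination h1
  exact mul_left_cancel₀ (by positivity) h2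

private lemma sq_MO (n : ℕ) : ∫ x in (0 : ℝ)..1, pp n x ^ 2 = (n : ℝ) ^ 2 := by
  have h1 := hA1 n 1 1
  have h2 : (fun x : ℝ => pp n (1 * x) * pp n (1 * x)) = fun x => pp n x ^ 2 := by
    ext x
    rw [one_mul]
    ring
  rw [h2] at h1
  rw [h1]
  have h3 : ∀ m : ℕ, ∑ j ∈ Finset.range m, (2 * (j : ℝ) + 1) * LL j 1 * LL j 1 = (m : ℝ) ^ 2 := by
    intro m
    induction m with
    | zero => simp
    | succ m ih =>
      rw [Finset.sum_range_succ, ih, LL_one_MO, mul_assoc, ← mul_pow]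
      norm_num
      ring
  exact h3 n

private lemma x_MO (n : ℕ) : ∫ x in (0 : ℝ)..1, x * pp n x ^ 2 = (n : ℝ) ^ 2 - (n : ℝ) / 2 := by
  rcases Nat.eq_zero_or_pos n with h0 | hn
  · subst h0
    simp [pp]
  obtain ⟨m, rfl⟩ : ∃ m, n = m + 1 := ⟨n - 1, by omega⟩
  have hc := cn_MO (m + 1) hn
  have h1 : ∀ x : ℝ, x * pp (m + 1) x ^ 2 =
      ∑ i ∈ Finset.range (m + 1), pc (m + 1) i * (pp (m + 1) x * x ^ (i + 1)) := by
    intro x
    have h2 : pp (m + 1) x ^ 2 = pp (m + 1) x * ∑ i ∈ Finset.range (m + 1), pc (m + 1) i * x ^ i := by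
      rw [pow_two]
      rfl
    rw [h2, Finset.mul_sum, Finset.mul_sum]
    refine Finset.sum_congr rfl fun i _ => by ring
  have h2 : ∀ x : ℝ, pp (m + 1) x ^ 2 =
      ∑ i ∈ Finset.range (m + 1), pc (m + 1) i * (pp (m + 1) x * x ^ i) := by
    intro x
    have h2 : pp (m + 1) x ^ 2 = pp (m + 1) x * ∑ i ∈ Finset.range (m + 1), pc (m + 1) i * x ^ i := by
      rw [pow_two]
      rfl
    rw [h2, Finset.mul_sum]
    refine Finset.sum_congr rfl fun i _ => by ring
  have hcont : Continuous (pp (m + 1)) := by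
    unfold pp
    fun_prop
  have h3 : ∫ x in (0 : ℝ)..1, x * pp (m + 1) x ^ 2 =
      ∑ i ∈ Finset.range (m + 1), pc (m + 1) i * ∫ x in (0 : ℝ)..1, pp (m + 1) x * x ^ (i + 1) := by
    simp only [h1]
    rw [intervalIntegral.integral_finsetSum]
    · refine Finset.sum_congr rfl fun i _ => intervalIntegral.integral_const_mul _ _
    · intro i _
      exact Continuous.intervalIntegrable (by fun_prop) _ _
  have h4 : ∫ x in (0 : ℝ)..1, pp (m + 1) x ^ 2 =
      ∑ i ∈ Finset.range (m + 1), pc (m + 1) i * ∫ x in (0 : ℝ)..1, pp (m + 1) x * x ^ i := by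
    simp only [h2]
    rw [intervalIntegral.integral_finsetSum]
    · refine Finset.sum_congr rfl fun i _ => intervalIntegral.integral_const_mul _ _
    · intro i _
      exact Continuous.intervalIntegrable (by fun_prop) _ _
  rw [sq_MO] at h4
  rw [h3, Finset.sum_range_succ, top_MO]
  have h5 : ∑ i ∈ Finset.range m, pc (m + 1) i * ∫ x in (0 : ℝ)..1, pp (m + 1) x * x ^ (i + 1) =
      ∑ i ∈ Finset.range m, pc (m + 1) i * ∫ x in (0 : ℝ)..1, pp (m + 1) x * x ^ i := by
    refine Finset.sum_congr rfl fun i hi => ?_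
    have hi' := Finset.mem_range.1 hi
    rw [low_MO _ _ (by omega), low_MO _ _ (by omega)]
  rw [Finset.sum_range_succ, low_MO _ _ (by omega)] at h4
  rw [Nat.add_sub_cancel] at hc
  rw [h5]
  linear_combination -h4 + hc

theorem hMO : StMO := by
  refine ⟨sq_MO, fun n => ?_⟩
  have hcont : Continuous (pp n) := by
    unfold pp
    fun_prop
  have h1 : ∀ x : ℝ, (1 - x) * pp n x ^ 2 = pp n x ^ 2 - x * pp n x ^ 2 := fun x => by ring
  simp only [h1]
  rw [intervalIntegral.integral_sub (Continuous.intervalIntegrable (by fun_prop) _ _)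
    (Continuous.intervalIntegrable (by fun_prop) _ _), sq_MO, x_MO]
  ring

end Helper85.CP
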