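import Pool.Agent.Helper85.CP.St

/-!
# MP_3dd6d4_an, project CP, module RR: the recursion numbers
-/

set_option autoImplicit false

namespace Helper85.CP

theorem hRR : StRR := by
  refine ⟨?_, ?_, ?_⟩
  · intro a _ _
    unfold ee
    nlinarith [sq_nonneg (13 / 100 * a - 2 / 5 * a ^ 2 - 7 / 15 * a ^ 3)]
  · intro a h1 h2
    obtain ⟨x, rfl⟩ : ∃ x, a = 1 / 8 + x := ⟨a - 1 / 8, by ring⟩
    have hx : 0 ≤ x := by linarith
    have hx' : x ≤ 1 / 8 := by linarith
    unfold ee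
    nlinarith [mul_nonneg hx (sub_nonneg.mpr hx'), mul_nonneg (mul_nonneg hx hx) (sub_nonneg.mpr hx'),
      mul_nonneg hx hx]
  · intro a h1 h2
    unfold ee
    have h3 : 0 ≤ 13 / 100 - 2 / 5 * a - 7 / 15 * a ^ 2 := by nlinarith
    nlinarith [mul_nonneg h1 h3]

end Helper85.CP
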