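import Pool.Agent.Helper85.CP.St
import Mathlib.Analysis.Complex.ExponentialBounds

/-!
# MP_3dd6d4_an, project CP, module SL: the slack
-/

set_option autoImplicit false

namespace Helper85.CP

open Helper69.CR

private theorem atanh_SL (u x : ℝ) (hu0 : 0 ≤ u) (hu1 : u < 1) (hx0 : 0 ≤ x) (hx1 : x ≤ 1) :
    Real.log (1 + u * x) - Real.log (1 - u * x) ≤ x * (Real.log (1 + u) - Real.log (1 - u)) := by
  have hux : u * x ≤ u := mul_le_of_le_one_right hu0 hx1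
  have h1 := Real.hasSum_log_sub_log_of_abs_lt_one (x := u * x)
    (by rw [abs_of_nonneg (mul_nonneg hu0 hx0)]; linarith)
  have h2 := (Real.hasSum_log_sub_log_of_abs_lt_one (x := u)
    (by rw [abs_of_nonneg hu0]; exact hu1)).mul_left x
  refine hasSum_le (fun k => ?_) h1 h2
  have h3 : (u * x) ^ (2 * k + 1) ≤ x * u ^ (2 * k + 1) := by
    rw [mul_pow, mul_comm]
    refine mul_le_mul_of_nonneg_right ?_ (pow_nonneg hu0 _)
    exact pow_le_of_le_one hx0 hx1 (by omega)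
  have h4 : (0 : ℝ) ≤ 2 * (1 / (2 * (k : ℝ) + 1)) := by positivity
  calc 2 * (1 / (2 * (k : ℝ) + 1)) * (u * x) ^ (2 * k + 1)
      ≤ 2 * (1 / (2 * (k : ℝ) + 1)) * (x * u ^ (2 * k + 1)) := mul_le_mul_of_nonneg_left h3 h4
    _ = x * (2 * (1 / (2 * (k : ℝ) + 1)) * u ^ (2 * k + 1)) := by ring

private theorem key_SL (n : ℕ) (hn : 1 ≤ n) (x : ℝ) (hx0 : 0 ≤ x) (hx1 : x ≤ 1) :
    (2 * (n : ℝ) + 1 + x) / (2 * (n : ℝ) + 1 - x) ≤ (((n : ℝ) + 1) / n) ^ x := by
  have hn0 : (1 : ℝ) ≤ n := by exact_mod_cast hn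
  have hn1 : (0 : ℝ) < n := by linarith
  have hm : (0 : ℝ) < 2 * (n : ℝ) + 1 := by positivity
  have hd : (0 : ℝ) < 2 * (n : ℝ) + 1 - x := by linarith
  have h := atanh_SL (1 / (2 * (n : ℝ) + 1)) x (by positivity)
    (by rw [div_lt_one hm]; linarith) hx0 hx1
  have e1 : 1 + 1 / (2 * (n : ℝ) + 1) * x = (2 * (n : ℝ) + 1 + x) / (2 * (n : ℝ) + 1) := by
    field_simp
  have e2 : 1 - 1 / (2 * (n : ℝ) + 1) * x = (2 * (n : ℝ) + 1 - x) / (2 * (n : ℝ) + 1) := by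
    field_simp
  have e3 : 1 + 1 / (2 * (n : ℝ) + 1) = (2 * ((n : ℝ) + 1)) / (2 * (n : ℝ) + 1) := by
    field_simp; ring
  have e4 : 1 - 1 / (2 * (n : ℝ) + 1) = (2 * (n : ℝ)) / (2 * (n : ℝ) + 1) := by
    field_simp; ring
  rw [e1, e2, e3, e4, ← Real.log_div (by positivity) (by positivity),
    ← Real.log_div (by positivity) (by positivity), div_div_div_cancel_right₀ hm.ne',
    div_div_div_cancel_right₀ hm.ne', mul_div_mul_left _ _ (two_ne_zero)] at h
  rw [Real.rpow_def_of_pos (by positivity), mul_comm (Real.log _) x,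
    ← Real.log_le_iff_le_exp (div_pos (by positivity) hd)]
  exact h

private theorem exp_SL (x : ℝ) (h0 : 0 ≤ x) (h1 : x ≤ 1) :
    1 - x + x ^ 2 / 2 - x ^ 3 / 6 ≤ Real.exp (-x) := by
  have h := Real.exp_bound (x := -x) (by rw [abs_neg, abs_of_nonneg h0]; exact h1)
    (n := 5) (by norm_num)
  rw [abs_neg, abs_of_nonneg h0] at h
  have h2 := (abs_le.mp h).1
  simp only [Finset.sum_range_succ, Finset.sum_range_zero, Nat.factorial] at h2
  norm_num at h2
  have h3 : x ^ 5 ≤ x ^ 4 := pow_le_pow_of_le_one h0 h1 (by norm_num)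
  have h4 : 0 ≤ x ^ 4 := by positivity
  nlinarith [h2, h3, h4]

private theorem poly_SL (a : ℝ) (h0 : 0 < a) (h1 : a ≤ 1 / 4) :
    (2 - a) * (3 - a) * (1 + ee a) ≤ 3 * (1 + a) * (2 + a) *
      (1 - 11 / 5 * a + (11 / 5 * a) ^ 2 / 2 - (11 / 5 * a) ^ 3 / 6) := by
  have e : 3 * (1 + a) * (2 + a) * (1 - 11 / 5 * a + (11 / 5 * a) ^ 2 / 2 - (11 / 5 * a) ^ 3 / 6) -
      (2 - a) * (3 - a) * (1 + ee a) = a * (1 / 50 * (1 - 4 * a) ^ 4 +
        4 * (9 / 1600) * (4 * a) * (1 - 4 * a) ^ 3 + 6 * (727 / 16000) * (4 * a) ^ 2 * (1 - 4 * a) ^ 2 +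
        4 * (4697 / 48000) * (4 * a) ^ 3 * (1 - 4 * a) + 3929 / 38400 * (4 * a) ^ 4) := by
    unfold ee
    ring
  have h2 : 0 ≤ 1 - 4 * a := by linarith
  have h3 : 0 ≤ a * (1 / 50 * (1 - 4 * a) ^ 4 +
        4 * (9 / 1600) * (4 * a) * (1 - 4 * a) ^ 3 + 6 * (727 / 16000) * (4 * a) ^ 2 * (1 - 4 * a) ^ 2 +
        4 * (4697 / 48000) * (4 * a) ^ 3 * (1 - 4 * a) + 3929 / 38400 * (4 * a) ^ 4) := by
    positivity
  linarith

theorem hSL : StSL := by
  intro n a hn h0 h1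
  have hee : 0 ≤ ee a := by
    unfold ee
    have h3 : 0 ≤ 13 / 100 - 2 / 5 * a - 7 / 15 * a ^ 2 := by nlinarith
    nlinarith [mul_nonneg h0.le h3]
  have hna : 0 ≤ (1 - a) / a := div_nonneg (by linarith) h0.le
  induction n, hn using Nat.le_induction with
  | base =>
    have hl : Real.log 3 ≤ 11 / 10 := by
      have := Real.log_three_lt_d9
      linarith
    have e1 : (((3 : ℕ) : ℝ)) ^ (1 - 2 * a) = 3 * Real.exp (-(2 * a * Real.log 3)) := by
      push_cast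
      rw [Real.rpow_sub (by norm_num), Real.rpow_one, Real.rpow_def_of_pos (by norm_num), Real.exp_neg,
        div_eq_mul_inv]
      congr 3
      ring
    have h2 : Real.exp (-(11 / 5 * a)) ≤ Real.exp (-(2 * a * Real.log 3)) := by
      apply Real.exp_le_exp.2
      nlinarith
    have h3 := exp_SL (11 / 5 * a) (by positivity) (by linarith)
    have h4 := poly_SL a h0 h1
    have h5 : (2 - a) * (3 - a) * (1 + ee a) ≤ 3 * (1 + a) * (2 + a) *
        Real.exp (-(2 * a * Real.log 3)) :=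
      h4.trans (mul_le_mul_of_nonneg_left (h3.trans h2) (by positivity))
    have e2 : Cn 3 a = (1 - a) / a * ((2 - a) * (3 - a) / ((1 + a) * (2 + a))) := by
      unfold Cn
      simp only [Finset.prod_range_succ, Finset.prod_range_zero, Nat.cast_zero, Nat.cast_one,
        Nat.cast_ofNat, zero_add, one_mul]
      rw [show (1 + 1 - a : ℝ) = 2 - a by ring, show (2 + 1 - a : ℝ) = 3 - a by ring]
      field_simp
    rw [e1, e2, mul_assoc, mul_comm (3 * Real.exp (-(2 * a * Real.log 3)))]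
    apply mul_le_mul_of_nonneg_left _ hna
    rw [div_mul_eq_mul_div, div_le_iff₀ (by positivity)]
    calc (2 - a) * (3 - a) * (1 + ee a) ≤ 3 * (1 + a) * (2 + a) *
        Real.exp (-(2 * a * Real.log 3)) := h5
      _ = _ := by ring
  | succ n hn ih =>
    have hn0 : (3 : ℝ) ≤ n := by exact_mod_cast hn
    have hn1 : (0 : ℝ) < n := by linarith
    have h1' : Cn (n + 1) a = Cn n a * (((n : ℝ) + 1 - a) / ((n : ℝ) + a)) := by
      unfold Cn
      rw [Finset.prod_range_succ]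
    have h2 := key_SL n (by omega) (1 - 2 * a) (by linarith) (by linarith)
    have h3 : (2 * (n : ℝ) + 1 + (1 - 2 * a)) / (2 * (n : ℝ) + 1 - (1 - 2 * a)) =
        ((n : ℝ) + 1 - a) / ((n : ℝ) + a) := by
      rw [show 2 * (n : ℝ) + 1 + (1 - 2 * a) = 2 * ((n : ℝ) + 1 - a) by ring,
        show 2 * (n : ℝ) + 1 - (1 - 2 * a) = 2 * ((n : ℝ) + a) by ring,
        mul_div_mul_left _ _ two_ne_zero]
    rw [h3] at h2
    rw [h1']
    have h4 : 0 ≤ ((n : ℝ) + 1 - a) / ((n : ℝ) + a) :=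
      div_nonneg (by linarith) (by positivity)
    have h5 : 0 ≤ (n : ℝ) ^ (1 - 2 * a) * ((1 - a) / a) :=
      mul_nonneg (Real.rpow_nonneg hn1.le _) hna
    calc Cn n a * (((n : ℝ) + 1 - a) / ((n : ℝ) + a)) * (1 + ee a)
        = (Cn n a * (1 + ee a)) * (((n : ℝ) + 1 - a) / ((n : ℝ) + a)) := by ring
      _ ≤ ((n : ℝ) ^ (1 - 2 * a) * ((1 - a) / a)) * (((n : ℝ) + 1) / n) ^ (1 - 2 * a) :=
          mul_le_mul ih h2 h4 h5
      _ = ((n : ℝ) * (((n : ℝ) + 1) / n)) ^ (1 - 2 * a) * ((1 - a) / a) := by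
          rw [Real.mul_rpow hn1.le (by positivity)]; ring
      _ = (((n + 1 : ℕ) : ℝ)) ^ (1 - 2 * a) * ((1 - a) / a) := by
          rw [mul_div_cancel₀ _ hn1.ne']; push_cast; rfl

end Helper85.CP
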