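import Pool.Agent.Helper85.CP.St

/-!
# MP_3dd6d4_an, project CP, module YB (bound of the inner integral)
-/

set_option autoImplicit false

open MeasureTheory Set Filter Topology

noncomputable section

namespace Helper85.CP

/-- `log (E + x) - log (E - x)` -/
private def LE_YB (E x : ℝ) : ℝ := Real.log (E + x) - Real.log (E - x)

private def G_YB (E x : ℝ) : ℝ := -2 / (E ^ 2 * x) + LE_YB E x / E ^ 3

private lemma hasDeriv_LE_YB {E x : ℝ} (h0 : 0 ≤ x) (h1 : x < E) :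
    HasDerivAt (LE_YB E) (2 * E / (E ^ 2 - x ^ 2)) x := by
  have ha : E + x ≠ 0 := by linarith
  have hb : E - x ≠ 0 := by linarith
  have h2 : HasDerivAt (fun y : ℝ => Real.log (E + y)) (1 / (E + x)) x :=
    (((hasDerivAt_id x).const_add E).log ha)
  have h3 : HasDerivAt (fun y : ℝ => Real.log (E - y)) (-1 / (E - x)) x :=
    (((hasDerivAt_id x).const_sub E).log hb)
  have h4 := h2.sub h3
  have e : 1 / (E + x) - -1 / (E - x) = 2 * E / (E ^ 2 - x ^ 2) := by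
    have hc : E ^ 2 - x ^ 2 ≠ 0 := by
      have : E ^ 2 - x ^ 2 = (E + x) * (E - x) := by ring
      rw [this]
      exact mul_ne_zero ha hb
    field_simp
    ring
  rw [e] at h4
  exact h4

private lemma hasDeriv_G_YB {E x : ℝ} (h0 : 0 < x) (h1 : x < E) :
    HasDerivAt (G_YB E) (2 / (x ^ 2 * (E ^ 2 - x ^ 2))) x := by
  have hE : 0 < E := by linarith
  have h2 : HasDerivAt (fun y : ℝ => -2 / (E ^ 2 * y)) (2 / (E ^ 2 * x ^ 2)) x := by
    have h := (hasDerivAt_inv h0.ne').const_mul (-2 / E ^ 2)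
    have e1 : (fun y : ℝ => -2 / E ^ 2 * y⁻¹) = fun y : ℝ => -2 / (E ^ 2 * y) := by
      funext y
      rw [div_mul_eq_div_div, div_eq_mul_inv (-2 / E ^ 2) y]
    have e2 : -2 / E ^ 2 * -(x ^ 2)⁻¹ = 2 / (E ^ 2 * x ^ 2) := by
      field_simp
    rw [e1, e2] at h
    exact h
  have h3 := (hasDeriv_LE_YB h0.le h1).div_const (E ^ 3)
  have h4 := h2.add h3
  have hc : E ^ 2 - x ^ 2 ≠ 0 := by
    have : 0 < (E + x) * (E - x) := mul_pos (by linarith) (by linarith)
    nlinarith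
  have e : 2 / (E ^ 2 * x ^ 2) + 2 * E / (E ^ 2 - x ^ 2) / E ^ 3 =
      2 / (x ^ 2 * (E ^ 2 - x ^ 2)) := by
    field_simp
    ring
  rw [e] at h4
  exact h4

private lemma inner_YB {E ρ : ℝ} (hE : 1 < E) (h0 : 0 < ρ) (h1 : ρ ≤ 1) :
    ∫ x in ρ..1, 2 / (x ^ 2 * (E ^ 2 - x ^ 2)) = G_YB E 1 - G_YB E ρ := by
  apply intervalIntegral.integral_eq_sub_of_hasDerivAt
  · intro x hx
    rw [uIcc_of_le h1] at hx
    exact hasDeriv_G_YB (by linarith [hx.1]) (by linarith [hx.2])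
  · apply ContinuousOn.intervalIntegrable
    rw [uIcc_of_le h1]
    apply ContinuousOn.div continuousOn_const (by fun_prop)
    intro x hx
    have h2 : 0 < x := by linarith [hx.1]
    have h3 : 0 < E ^ 2 - x ^ 2 := by nlinarith [hx.2]
    positivity

private def P_YB (E x : ℝ) : ℝ :=
  x ^ 2 * G_YB E 1 + 4 * x / E ^ 2 - ((x ^ 2 - E ^ 2) * LE_YB E x + 2 * E * x) / E ^ 3

private lemma hasDeriv_P_YB {E x : ℝ} (h0 : 0 ≤ x) (h1 : x < E) :
    HasDerivAt (P_YB E) (2 * x * G_YB E 1 + 4 / E ^ 2 - 2 * x * LE_YB E x / E ^ 3) x := by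
  have hE : 0 < E := by linarith
  have h2 : HasDerivAt (fun y : ℝ => y ^ 2 * G_YB E 1) (2 * x * G_YB E 1) x := by
    have := (hasDerivAt_pow 2 x).mul_const (G_YB E 1)
    simpa using this
  have h3 : HasDerivAt (fun y : ℝ => 4 * y / E ^ 2) (4 / E ^ 2) x := by
    have := ((hasDerivAt_id x).const_mul 4).div_const (E ^ 2)
    simpa using this
  have h4 : HasDerivAt (fun y : ℝ => (y ^ 2 - E ^ 2) * LE_YB E y)
      (2 * x * LE_YB E x + (x ^ 2 - E ^ 2) * (2 * E / (E ^ 2 - x ^ 2))) x := by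
    have h := ((hasDerivAt_pow 2 x).sub_const (E ^ 2)).fun_mul (hasDeriv_LE_YB h0 h1)
    refine h.congr_deriv ?_
    push_cast
    ring
  have h5 : HasDerivAt (fun y : ℝ => 2 * E * y) (2 * E) x := by
    simpa using (hasDerivAt_id x).const_mul (2 * E)
  have h6 := (h2.add h3).sub ((h4.add h5).div_const (E ^ 3))
  have hc : E ^ 2 - x ^ 2 ≠ 0 := by
    have : 0 < (E + x) * (E - x) := mul_pos (by linarith) (by linarith)
    nlinarith
  have e : (2 * x * LE_YB E x + (x ^ 2 - E ^ 2) * (2 * E / (E ^ 2 - x ^ 2)) + 2 * E) =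
      2 * x * LE_YB E x := by
    field_simp
    ring
  rw [e] at h6
  exact h6

private lemma outer_YB {E τ : ℝ} (hE : 1 < E) (h0 : 0 < τ) (h1 : τ ≤ 1) :
    ∫ ρ in (0 : ℝ)..τ, 2 * ρ * (∫ x in ρ..1, 2 / (x ^ 2 * (E ^ 2 - x ^ 2))) = P_YB E τ := by
  have e1 : ∫ ρ in (0 : ℝ)..τ, 2 * ρ * (∫ x in ρ..1, 2 / (x ^ 2 * (E ^ 2 - x ^ 2))) =
      ∫ ρ in (0 : ℝ)..τ, (2 * ρ * G_YB E 1 + 4 / E ^ 2 - 2 * ρ * LE_YB E ρ / E ^ 3) := by
    rw [intervalIntegral.integral_of_le h0.le, intervalIntegral.integral_of_le h0.le]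
    apply setIntegral_congr_fun measurableSet_Ioc
    intro ρ hρ
    simp only
    rw [inner_YB hE hρ.1 (hρ.2.trans h1)]
    have hρ0 : ρ ≠ 0 := hρ.1.ne'
    have hE0 : E ≠ 0 := by linarith
    unfold G_YB
    field_simp
    ring
  rw [e1, intervalIntegral.integral_eq_sub_of_hasDerivAt (f := P_YB E)]
  · have : P_YB E 0 = 0 := by
      unfold P_YB LE_YB
      simp
    rw [this, sub_zero]
  · intro x hx
    rw [uIcc_of_le h0.le] at hx
    exact hasDeriv_P_YB hx.1 (by linarith [hx.2])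
  · apply ContinuousOn.intervalIntegrable
    rw [uIcc_of_le h0.le]
    have hc : ContinuousOn (LE_YB E) (Icc 0 τ) := by
      intro x hx
      exact (hasDeriv_LE_YB hx.1 (by linarith [hx.2])).continuousAt.continuousWithinAt
    fun_prop

/-- `ℓ(u) = log(1+u) - log(1-u) ≥ 2u + (2/3)u³` -/
private lemma ell_YB {u : ℝ} (h0 : 0 ≤ u) (h1 : u < 1) :
    2 * u + 2 / 3 * u ^ 3 ≤ LE_YB 1 u := by
  have hm : MonotoneOn (fun x : ℝ => LE_YB 1 x - (2 * x + 2 / 3 * x ^ 3)) (Ico 0 1) := by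
    apply monotoneOn_of_deriv_nonneg (convex_Ico 0 1)
    · intro x hx
      apply ContinuousAt.continuousWithinAt
      exact (hasDeriv_LE_YB hx.1 hx.2).continuousAt.sub (by fun_prop)
    · intro x hx
      rw [interior_Ico] at hx
      apply DifferentiableAt.differentiableWithinAt
      exact (hasDeriv_LE_YB hx.1.le hx.2).differentiableAt.sub (by fun_prop)
    · intro x hx
      rw [interior_Ico] at hx
      have h2 : HasDerivAt (fun x : ℝ => 2 * x + 2 / 3 * x ^ 3) (2 + 2 * x ^ 2) x := by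
        have a1 := (hasDerivAt_id x).const_mul (2 : ℝ)
        have a2 := (hasDerivAt_pow 3 x).const_mul (2 / 3 : ℝ)
        refine (a1.fun_add a2).congr_deriv ?_
        push_cast
        ring
      have h3 := (hasDeriv_LE_YB hx.1.le hx.2).sub h2
      have h4 : deriv (fun x : ℝ => LE_YB 1 x - (2 * x + 2 / 3 * x ^ 3)) x =
          2 * 1 / (1 ^ 2 - x ^ 2) - (2 + 2 * x ^ 2) := h3.deriv
      rw [h4]
      have h5 : 0 < 1 - x ^ 2 := by nlinarith [hx.1, hx.2]
      rw [sub_nonneg, le_div_iff₀ (by simpa using h5)]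
      nlinarith [sq_nonneg (x ^ 2)]
  have h2 := @hm 0 ⟨le_rfl, by norm_num⟩ u ⟨h0, h1⟩ h0
  have h3 : LE_YB 1 0 = 0 := by unfold LE_YB; simp
  simp only [h3] at h2
  linarith

/-- `(1-u²) ℓ(u) ≤ 2u - (4/3)u³ - (4/15)u⁵` -/
private lemma key_YB {u : ℝ} (h0 : 0 ≤ u) (h1 : u < 1) :
    (1 - u ^ 2) * LE_YB 1 u ≤ 2 * u - 4 / 3 * u ^ 3 - 4 / 15 * u ^ 5 := by
  have hm : MonotoneOn (fun x : ℝ => (2 * x - 4 / 3 * x ^ 3 - 4 / 15 * x ^ 5) -
      (1 - x ^ 2) * LE_YB 1 x) (Ico 0 1) := by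
    apply monotoneOn_of_deriv_nonneg (convex_Ico 0 1)
    · intro x hx
      apply ContinuousAt.continuousWithinAt
      have := (hasDeriv_LE_YB hx.1 hx.2).continuousAt
      exact ContinuousAt.sub (by fun_prop) (ContinuousAt.mul (by fun_prop) this)
    · intro x hx
      rw [interior_Ico] at hx
      apply DifferentiableAt.differentiableWithinAt
      have := (hasDeriv_LE_YB hx.1.le hx.2).differentiableAt
      exact DifferentiableAt.sub (by fun_prop) (DifferentiableAt.mul (by fun_prop) this)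
    · intro x hx
      rw [interior_Ico] at hx
      have h2 : HasDerivAt (fun x : ℝ => 2 * x - 4 / 3 * x ^ 3 - 4 / 15 * x ^ 5)
          (2 - 4 * x ^ 2 - 4 / 3 * x ^ 4) x := by
        have a1 := (hasDerivAt_id x).const_mul (2 : ℝ)
        have a2 := (hasDerivAt_pow 3 x).const_mul (4 / 3 : ℝ)
        have a4 := (hasDerivAt_pow 5 x).const_mul (4 / 15 : ℝ)
        refine ((a1.fun_sub a2).fun_sub a4).congr_deriv ?_
        push_cast
        ring
      have h3 : HasDerivAt (fun x : ℝ => (1 - x ^ 2) * LE_YB 1 x)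
          (-(2 * x) * LE_YB 1 x + (1 - x ^ 2) * (2 * 1 / (1 ^ 2 - x ^ 2))) x := by
        have h := ((hasDerivAt_pow 2 x).const_sub (1 : ℝ)).fun_mul (hasDeriv_LE_YB hx.1.le hx.2)
        refine h.congr_deriv ?_
        push_cast
        ring
      have h4 := (h2.sub h3).deriv
      have h5 : deriv (fun x : ℝ => (2 * x - 4 / 3 * x ^ 3 - 4 / 15 * x ^ 5) -
          (1 - x ^ 2) * LE_YB 1 x) x = (2 - 4 * x ^ 2 - 4 / 3 * x ^ 4) -
          (-(2 * x) * LE_YB 1 x + (1 - x ^ 2) * (2 * 1 / (1 ^ 2 - x ^ 2))) := h4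
      rw [h5]
      have h6 : 0 < 1 - x ^ 2 := by nlinarith [hx.1, hx.2]
      have h7 : (1 - x ^ 2) * (2 * 1 / (1 ^ 2 - x ^ 2)) = 2 := by
        rw [one_pow]
        field_simp
      rw [h7]
      have h8 := ell_YB hx.1.le hx.2
      have h9 : 0 ≤ 2 * x * (LE_YB 1 x - (2 * x + 2 / 3 * x ^ 3)) :=
        mul_nonneg (by linarith [hx.1]) (by linarith)
      nlinarith
  have h2 := @hm 0 ⟨le_rfl, by norm_num⟩ u ⟨h0, h1⟩ h0
  have h3 : LE_YB 1 0 = 0 := by unfold LE_YB; simp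
  simp only [h3] at h2
  linarith

private lemma scale_YB {E τ : ℝ} (hE : 1 < E) (h0 : 0 < τ) (h1 : τ ≤ 1) :
    LE_YB E τ = LE_YB 1 (τ / E) := by
  have hE0 : 0 < E := by linarith
  unfold LE_YB
  have e1 : E + τ = E * (1 + τ / E) := by field_simp
  have e2 : E - τ = E * (1 - τ / E) := by field_simp
  have h2 : τ / E < 1 := by rw [div_lt_one hE0]; linarith
  rw [e1, e2, Real.log_mul hE0.ne' (by positivity), Real.log_mul hE0.ne' (by linarith)]
  ring

private lemma log_YB {E : ℝ} (hE : 1 < E) (hE2 : E ≤ 71 / 70) : 494 / 100 ≤ LE_YB E 1 := by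
  have h1 : (141 : ℝ) ≤ (E + 1) / (E - 1) := by
    rw [le_div_iff₀ (by linarith)]
    linarith
  have h2 : LE_YB E 1 = Real.log ((E + 1) / (E - 1)) := by
    unfold LE_YB
    rw [Real.log_div (by linarith) (by linarith)]
  rw [h2]
  refine le_trans ?_ (Real.log_le_log (by norm_num) h1)
  have h3 : (141 : ℝ) = 2 ^ 7 * (141 / 128) := by norm_num
  rw [h3, Real.log_mul (by norm_num) (by norm_num), Real.log_pow]
  have h4 := Real.log_two_gt_d9
  have h5 := Real.one_sub_inv_le_log_of_pos (x := (141 / 128 : ℝ)) (by norm_num)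
  push_cast
  norm_num at h5 ⊢
  linarith

theorem hYB : StYB := by
  intro E τ hE hE2 h0 h1
  rw [outer_YB hE h0 h1]
  have hE0 : 0 < E := by linarith
  have hL := log_YB hE hE2
  have hLdef : Real.log ((E + 1) / (E - 1)) = LE_YB E 1 := by
    unfold LE_YB
    rw [Real.log_div (by linarith) (by linarith)]
  rw [hLdef]
  set L1 := LE_YB E 1 with hL1
  have hu0 : 0 ≤ τ / E := by positivity
  have hu1 : τ / E < 1 := by rw [div_lt_one hE0]; linarith
  have hk := key_YB hu0 hu1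
  rw [← scale_YB hE h0 h1] at hk
  -- `e = 1/E²`, `s = τ e`
  set e := 1 / E ^ 2 with he
  have he0 : 0 < e := by positivity
  have he1 : e ≤ 1 := by
    rw [he, div_le_one (by positivity)]
    nlinarith
  have hi3 : 1 / E ^ 3 ≤ e := by
    rw [he]
    apply one_div_le_one_div_of_le (by positivity)
    nlinarith [sq_nonneg E, pow_pos hE0 2]
  have hP : P_YB E τ ≤ τ * (τ * L1 * (1 / E ^ 3) + (4 - 2 * τ) * e - 4 / 3 * τ ^ 2 * e ^ 2 -
      4 / 15 * τ ^ 4 * e ^ 3) := by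
    have hb : P_YB E τ = τ ^ 2 * (L1 * (1 / E ^ 3) - 2 * e) + 2 * τ * e +
        (1 / E) * ((1 - (τ / E) ^ 2) * LE_YB E τ) := by
      unfold P_YB G_YB
      rw [← hL1, he]
      field_simp
      ring
    rw [hb]
    have hk2 := mul_le_mul_of_nonneg_left hk (by positivity : (0 : ℝ) ≤ 1 / E)
    have e3 : 1 / E * (2 * (τ / E) - 4 / 3 * (τ / E) ^ 3 - 4 / 15 * (τ / E) ^ 5) =
        2 * τ * e - 4 / 3 * τ ^ 3 * e ^ 2 - 4 / 15 * τ ^ 5 * e ^ 3 := by
      rw [he]
      field_simp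
    rw [e3] at hk2
    nlinarith [hk2]
  refine hP.trans ?_
  rw [mul_comm (L1 + 1 / 2) τ]
  apply mul_le_mul_of_nonneg_left _ h0.le
  have hs1 : τ * e ≤ 1 := by nlinarith
  have hs0 : 0 ≤ τ * e := by positivity
  have h2 : τ * L1 * (1 / E ^ 3) ≤ τ * L1 * e :=
    mul_le_mul_of_nonneg_left hi3 (by positivity)
  have h3 : 4 / 15 * τ ^ 4 * e ^ 4 ≤ 4 / 15 * τ ^ 4 * e ^ 3 := by
    apply mul_le_mul_of_nonneg_left _ (by positivity)
    exact pow_le_pow_of_le_one he0.le he1 (by norm_num)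
  have h4 : (494 / 100) * (1 - τ * e) ≤ L1 * (1 - τ * e) :=
    mul_le_mul_of_nonneg_right hL (by linarith)
  set s := τ * e with hs
  have h5 : 0 ≤ 144 / 100 - 294 / 100 * s + 4 / 3 * s ^ 2 + 4 / 15 * s ^ 4 := by
    nlinarith [sq_nonneg (s ^ 2 - 73 / 100), sq_nonneg (s - 854 / 1000)]
  have h6 : τ ^ 2 * e ^ 2 = s ^ 2 := by rw [hs]; ring
  have h7 : τ ^ 4 * e ^ 4 = s ^ 4 := by rw [hs]; ring
  have h8 : τ * L1 * e = L1 * s := by rw [hs]; ring
  nlinarith [h2, h3, h4, h5, h6, h7, h8]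

end Helper85.CP
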