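import Pool.Agent.Helper85.CP.Top
import Pool.Agent.Helper53.P4T.Top
import Pool.Agent.Helper71.P4.Glue
import Pool.Agent.Helper9.P4M.M_NC

/-!
# MP_3dd6d4_an, project CP: the tables `3 ≤ n ≤ 6` with the loss function `lCP`
-/

set_option autoImplicit false

open MeasureTheory Set Filter Topology

noncomputable section

namespace Helper85.CP

open Helper69.CR Helper71.P4

/-! ### `∫ |p_k| ≤ 1.85 √k` for small `k` -/

theorem P1_small (k : ℕ) (hk1 : 1 ≤ k) (hk2 : k ≤ 13) :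
    ∫ s in (0 : ℝ)..1, |pp k s| ≤ 37 / 20 * Real.sqrt k := by
  have hkr : (1 : ℝ) ≤ k := by exact_mod_cast hk1
  have hkr2 : (k : ℝ) ≤ 13 := by exact_mod_cast hk2
  have hk0 : (0 : ℝ) < k := by linarith
  set E : ℝ := Real.sqrt (1 + 1 / (5 * k)) with hE
  have hE2 : E ^ 2 = 1 + 1 / (5 * k) := Real.sq_sqrt (by positivity)
  have hpos : (0 : ℝ) < 1 / (5 * k) := by positivity
  have hE1 : 1 < E := by
    rw [hE]
    exact Real.lt_sqrt_of_sq_lt (by linarith)
  have h := hGG k E hE1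
  obtain ⟨hm1, hm2⟩ := hMO
  have hcont : Continuous (pp k) := by
    unfold pp
    exact continuous_finsetSum _ fun i _ => by fun_prop
  have e1 : ∫ t in (0 : ℝ)..1, (E ^ 2 - t) * pp k t ^ 2 = 7 * k / 10 := by
    have e2 : ∀ t : ℝ, (E ^ 2 - t) * pp k t ^ 2 =
        1 / (5 * k) * pp k t ^ 2 + (1 - t) * pp k t ^ 2 := by
      intro t
      rw [hE2]
      ring
    simp_rw [e2]
    rw [intervalIntegral.integral_add, intervalIntegral.integral_const_mul, hm1, hm2]
    · field_simp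
      ring
    · exact Continuous.intervalIntegrable (by fun_prop) _ _
    · exact Continuous.intervalIntegrable (by fun_prop) _ _
  have e3 : E ^ 2 / (E ^ 2 - 1) = 1 + 5 * k := by
    rw [hE2]
    field_simp
    ring
  rw [e1, e3] at h
  have hlog : Real.log (1 + 5 * k) ≤ 4.8521 := by
    have h1 : (1 : ℝ) + 5 * k ≤ 2 ^ 7 := by
      norm_num
      linarith
    calc Real.log (1 + 5 * k) ≤ Real.log (2 ^ 7) := Real.log_le_log (by positivity) h1
      _ = 7 * Real.log 2 := by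
        rw [Real.log_pow]
        norm_num
      _ ≤ 4.8521 := by
        have := Real.log_two_lt_d9
        linarith
  have h2 : (∫ t in (0 : ℝ)..1, |pp k t|) ^ 2 ≤ (37 / 20 * Real.sqrt k) ^ 2 := by
    refine h.trans ?_
    rw [mul_pow, Real.sq_sqrt hk0.le]
    calc 7 * (k : ℝ) / 10 * Real.log (1 + 5 * k) ≤ 7 * (k : ℝ) / 10 * 4.8521 := by gcongr
      _ ≤ (37 / 20) ^ 2 * k := by
        norm_num
        linarith
  exact (pow_le_pow_iff_left₀ (intervalIntegral.integral_nonneg zero_le_one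
    fun t _ => abs_nonneg _) (by positivity) (two_ne_zero)).1 h2

/-- the bounds of `∫ |p_k|` used in the tables. -/
def PT (n k : ℕ) : ℝ := if k < 2 * n then 37 / 20 * Real.sqrt k else ∫ s in (0 : ℝ)..1, |pp k s|

theorem PT_bound (n : ℕ) (hn : n ≤ 7) (k : ℕ) (hk : 2 ≤ k) :
    ∫ s in (0 : ℝ)..1, |pp k s| ≤ PT n k := by
  unfold PT
  split_ifs with h
  · exact P1_small k (by omega) (by omega)
  · exact le_rfl

/-! ### numbers -/

/-- the numerical conditions for a table, loss function `lCP`. -/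
def TNumC (n : ℕ) (M M1 : ℝ) : Prop :=
  0 ≤ M ∧ 0 ≤ M1 ∧ ∃ K : ℝ, 2 * M ≤ K ∧ 4 * (37 / 20) ^ 2 * M * M1 ≤ (K - 2 * M) ^ 2 ∧
    2 ^ 4 * (2 * M) * K ^ 3 ≤ (4 / 5 * (Cn n (1 / 8) / 7) ^ 2) ^ 4 ∧
    2 * K ≤ 4 / 5 * (Cn n (1 / 16) / 15) ^ 2

/-- Hölder for finite sums through the weighted AM-GM inequality. -/
private lemma holder_TC (m : ℕ) (μ x : ℕ → ℝ) (θ A K : ℝ) (hμ : ∀ k, 0 ≤ μ k) (hx : ∀ k, 0 ≤ x k)
    (h0 : 0 ≤ θ) (h1 : θ ≤ 1) (hA : 0 < A) (hK : 0 < K)
    (hS0 : 2 * ∑ k ∈ Finset.range m, μ k ≤ A)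
    (hS1 : 2 * ∑ k ∈ Finset.range m, μ k * x k ≤ K) :
    2 * ∑ k ∈ Finset.range m, μ k * x k ^ θ ≤ A ^ (1 - θ) * K ^ θ := by
  have key : ∀ k, A ^ θ * K ^ (1 - θ) * (x k ^ θ) ≤ θ * (A * x k) + (1 - θ) * K := by
    intro k
    have h := Real.geom_mean_le_arith_mean2_weighted h0 (by linarith : (0 : ℝ) ≤ 1 - θ)
      (mul_nonneg hA.le (hx k)) hK.le (by ring : θ + (1 - θ) = 1)
    rw [Real.mul_rpow hA.le (hx k)] at h
    calc A ^ θ * K ^ (1 - θ) * (x k ^ θ) = A ^ θ * x k ^ θ * K ^ (1 - θ) := by ring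
      _ ≤ _ := h
  have hsum : A ^ θ * K ^ (1 - θ) * (2 * ∑ k ∈ Finset.range m, μ k * x k ^ θ) ≤ A * K := by
    calc A ^ θ * K ^ (1 - θ) * (2 * ∑ k ∈ Finset.range m, μ k * x k ^ θ)
        = 2 * ∑ k ∈ Finset.range m, μ k * (A ^ θ * K ^ (1 - θ) * (x k ^ θ)) := by
          rw [mul_left_comm, Finset.mul_sum]
          congr 1
          apply Finset.sum_congr rfl
          intro k _
          ring
      _ ≤ 2 * ∑ k ∈ Finset.range m, μ k * (θ * (A * x k) + (1 - θ) * K) := by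
          gcongr with k _
          · exact hμ k
          · exact key k
      _ = θ * A * (2 * ∑ k ∈ Finset.range m, μ k * x k) +
            (1 - θ) * K * (2 * ∑ k ∈ Finset.range m, μ k) := by
          rw [Finset.mul_sum, Finset.mul_sum, Finset.mul_sum, Finset.mul_sum, Finset.mul_sum,
            ← Finset.sum_add_distrib]
          apply Finset.sum_congr rfl
          intro k _
          ring
      _ ≤ θ * A * K + (1 - θ) * K * A := by
          gcongr
      _ = A * K := by ring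
  have hpos : 0 < A ^ θ * K ^ (1 - θ) := by positivity
  have e : A * K = A ^ θ * K ^ (1 - θ) * (A ^ (1 - θ) * K ^ θ) := by
    have e1 : A ^ θ * A ^ (1 - θ) = A := by
      rw [← Real.rpow_add hA]
      simp
    have e2 : K ^ (1 - θ) * K ^ θ = K := by
      rw [← Real.rpow_add hK]
      simp
    calc A * K = (A ^ θ * A ^ (1 - θ)) * (K ^ (1 - θ) * K ^ θ) := by rw [e1, e2]
      _ = _ := by ring
  rw [e] at hsum
  exact le_of_mul_le_mul_left hsum hpos

private lemma Cn_nonneg_TC (n : ℕ) (a : ℝ) (h0 : 0 ≤ a) (h1 : a ≤ 1) : 0 ≤ Cn n a := by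
  unfold Cn
  apply Finset.prod_nonneg
  intro k _
  apply div_nonneg
  · have : (0 : ℝ) ≤ k := Nat.cast_nonneg k
    linarith
  · positivity

theorem loss_TC (n : ℕ) (M M1 : ℝ) (hn3 : 1 ≤ n) (hT : TNumC n M M1) (μ : ℕ → ℝ)
    (hμ : ∀ k, 0 ≤ μ k) (hM : ∑ k ∈ Finset.range (2 * n), μ k ≤ M)
    (hM1 : ∑ k ∈ Finset.range (2 * n), (k : ℝ) * μ k ≤ M1) (p : ℝ) (hp : 8 ≤ p) :
    2 * ∑ k ∈ Finset.range (2 * n), μ k * (2 * (1 + 37 / 20 * Real.sqrt k) ^ (1 - 4 / p)) ≤
      lCP p * Cn n (1 / p) ^ 2 := by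
  obtain ⟨hM0, hM10, K, hK2, hK4, hK8, hK16⟩ := hT
  set m := 2 * n with hm
  have hp0 : (0 : ℝ) < p := by linarith
  -- the exponent
  set θ : ℝ := 1 - 4 / p with hθ
  have hθ0 : 1 / 2 ≤ θ := by
    rw [hθ]
    have : 4 / p ≤ 1 / 2 := by rw [div_le_iff₀ hp0]; linarith
    linarith
  have hθ1 : θ ≤ 1 := by
    rw [hθ]
    have : 0 ≤ 4 / p := by positivity
    linarith
  have hP : ∀ k : ℕ, (1 : ℝ) ≤ 1 + 37 / 20 * Real.sqrt k := by
    intro k
    have := Real.sqrt_nonneg (k : ℝ)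
    linarith
  have hS00 : 0 ≤ ∑ k ∈ Finset.range m, μ k := Finset.sum_nonneg (fun k _ => hμ k)
  have hS10 : 0 ≤ ∑ k ∈ Finset.range m, (k : ℝ) * μ k :=
    Finset.sum_nonneg (fun k _ => mul_nonneg (Nat.cast_nonneg k) (hμ k))
  -- the sum with exponent one
  have hCS : ∑ k ∈ Finset.range m, μ k * Real.sqrt k ≤ Real.sqrt (M * M1) := by
    apply Real.le_sqrt_of_sq_le
    have h := Finset.sum_mul_sq_le_sq_mul_sq (Finset.range m) (fun k => Real.sqrt (μ k))
      (fun k => Real.sqrt (μ k) * Real.sqrt k)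
    have e1 : ∑ k ∈ Finset.range m, Real.sqrt (μ k) * (Real.sqrt (μ k) * Real.sqrt k) =
        ∑ k ∈ Finset.range m, μ k * Real.sqrt k := by
      apply Finset.sum_congr rfl
      intro k _
      rw [← mul_assoc, Real.mul_self_sqrt (hμ k)]
    have e2 : ∑ k ∈ Finset.range m, Real.sqrt (μ k) ^ 2 = ∑ k ∈ Finset.range m, μ k := by
      apply Finset.sum_congr rfl
      intro k _
      rw [Real.sq_sqrt (hμ k)]
    have e3 : ∑ k ∈ Finset.range m, (Real.sqrt (μ k) * Real.sqrt k) ^ 2 =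
        ∑ k ∈ Finset.range m, (k : ℝ) * μ k := by
      apply Finset.sum_congr rfl
      intro k _
      rw [mul_pow, Real.sq_sqrt (hμ k), Real.sq_sqrt (Nat.cast_nonneg k)]
      ring
    rw [e1, e2, e3] at h
    calc _ ≤ _ := h
      _ ≤ M * M1 := by gcongr
  have hKM : 37 / 10 * Real.sqrt (M * M1) ≤ K - 2 * M := by
    have h0 : 0 ≤ K - 2 * M := by linarith
    have h1 : (37 / 10 * Real.sqrt (M * M1)) ^ 2 ≤ (K - 2 * M) ^ 2 := by
      rw [mul_pow, Real.sq_sqrt (mul_nonneg hM0 hM10)]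
      calc (37 / 10 : ℝ) ^ 2 * (M * M1) = 4 * (37 / 20) ^ 2 * M * M1 := by ring
        _ ≤ _ := hK4
    exact (pow_le_pow_iff_left₀ (by positivity) h0 (by norm_num)).1 h1
  have hS1 : 2 * ∑ k ∈ Finset.range m, μ k * (1 + 37 / 20 * Real.sqrt k) ≤ K := by
    have e : ∑ k ∈ Finset.range m, μ k * (1 + 37 / 20 * Real.sqrt k) =
        ∑ k ∈ Finset.range m, μ k + 37 / 20 * ∑ k ∈ Finset.range m, μ k * Real.sqrt k := by
      rw [Finset.mul_sum, ← Finset.sum_add_distrib]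
      apply Finset.sum_congr rfl
      intro k _
      ring
    rw [e]
    linarith
  -- rewrite the sum
  have hsum : ∀ η : ℝ, 2 * ∑ k ∈ Finset.range m, μ k * (2 * (1 + 37 / 20 * Real.sqrt k) ^ η) =
      2 * (2 * ∑ k ∈ Finset.range m, μ k * (1 + 37 / 20 * Real.sqrt k) ^ η) := by
    intro η
    congr 1
    rw [Finset.mul_sum]
    apply Finset.sum_congr rfl
    intro k _
    ring
  rw [hsum]
  have hmono : ∀ η : ℝ, θ ≤ η → 2 * ∑ k ∈ Finset.range m, μ k * (1 + 37 / 20 * Real.sqrt k) ^ θ ≤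
      2 * ∑ k ∈ Finset.range m, μ k * (1 + 37 / 20 * Real.sqrt k) ^ η := by
    intro η hη
    gcongr with k _
    · exact hμ k
    · exact hP k
  -- the lower bound of the right side
  have hlow : ∀ q : ℝ, 8 ≤ q → q ≤ p →
      4 / 5 * (Cn n (1 / q) / (q - 1)) ^ 2 ≤ lCP p * Cn n (1 / p) ^ 2 := by
    intro q hq hqp
    have hNCq := hNC n q p hn3 (by linarith) hqp
    have hCq : 0 ≤ Cn n (1 / q) := Cn_nonneg_TC n _ (by positivity)
      ((div_le_one (by linarith)).2 (by linarith))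
    have h4 : ((p - 1) / (q - 1) * Cn n (1 / q)) ^ 2 ≤ Cn n (1 / p) ^ 2 := by
      apply pow_le_pow_left₀ _ hNCq
      apply mul_nonneg _ hCq
      apply div_nonneg <;> linarith
    have hl : 0 ≤ lCP p := by
      unfold lCP
      positivity
    have h5 : 4 / 5 ≤ lCP p * (p - 1) ^ 2 := by
      have e5 : lCP p * (p - 1) ^ 2 = (4 / 5 * p + 14 / 5) * (p - 1) ^ 2 / p ^ 3 := by
        unfold lCP
        field_simp
      rw [e5, le_div_iff₀ (by positivity)]
      nlinarith [mul_nonneg (sub_nonneg.mpr hp) (sub_nonneg.mpr hp)]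
    calc 4 / 5 * (Cn n (1 / q) / (q - 1)) ^ 2
        ≤ lCP p * (p - 1) ^ 2 * (Cn n (1 / q) / (q - 1)) ^ 2 := by gcongr
      _ = lCP p * ((p - 1) / (q - 1) * Cn n (1 / q)) ^ 2 := by ring
      _ ≤ _ := by gcongr
  rcases lt_or_ge p 16 with h16 | h16
  · -- p < 16
    have hθ34 : θ ≤ 3 / 4 := by
      rw [hθ]
      have : 1 / 4 ≤ 4 / p := by rw [le_div_iff₀ hp0]; linarith
      linarith
    have hkey : 2 * (2 * ∑ k ∈ Finset.range m, μ k * (1 + 37 / 20 * Real.sqrt k) ^ ((3 : ℝ) / 4)) ≤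
        4 / 5 * (Cn n (1 / 8) / 7) ^ 2 := by
      rcases hM0.eq_or_lt with hM00 | hMp
      · have hz : ∀ k ∈ Finset.range m, μ k = 0 := by
          have : ∑ k ∈ Finset.range m, μ k = 0 := by
            apply le_antisymm _ hS00
            rw [hM00]
            exact hM
          exact (Finset.sum_eq_zero_iff_of_nonneg (fun k _ => hμ k)).1 this
        rw [Finset.sum_eq_zero (fun k hk => by rw [hz k hk, zero_mul])]
        simp only [mul_zero]
        positivity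
      · have hKp : 0 < K := by linarith
        have h := holder_TC m μ (fun k => 1 + 37 / 20 * Real.sqrt k) (3 / 4) (2 * M) K hμ
          (fun k => by linarith [hP k]) (by norm_num) (by norm_num) (by linarith) hKp
          (by linarith) hS1
        have e1 : (1 : ℝ) - 3 / 4 = 1 / 4 := by norm_num
        rw [e1] at h
        have h2 : 2 * ((2 * M) ^ ((1 : ℝ) / 4) * K ^ ((3 : ℝ) / 4)) ≤
            4 / 5 * (Cn n (1 / 8) / 7) ^ 2 := by
          refine (pow_le_pow_iff_left₀ (by positivity) (by positivity) (by norm_num : (4 : ℕ) ≠ 0)).1 ?_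
          refine le_trans (le_of_eq ?_) hK8
          rw [mul_pow, mul_pow, ← Real.rpow_natCast ((2 * M) ^ ((1 : ℝ) / 4)) 4,
            ← Real.rpow_natCast (K ^ ((3 : ℝ) / 4)) 4, ← Real.rpow_mul (by positivity),
            ← Real.rpow_mul hKp.le]
          have e3 : (1 : ℝ) / 4 * ((4 : ℕ) : ℝ) = 1 := by norm_num
          have e4 : (3 : ℝ) / 4 * ((4 : ℕ) : ℝ) = ((3 : ℕ) : ℝ) := by norm_num
          rw [e3, e4, Real.rpow_one, Real.rpow_natCast]
          ring
        linarith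
    have h1 := hmono (3 / 4) hθ34
    have h3 := hlow 8 le_rfl hp
    have e7 : (8 : ℝ) - 1 = 7 := by norm_num
    rw [e7] at h3
    linarith
  · -- 16 ≤ p
    have h1 := hmono 1 hθ1
    simp only [Real.rpow_one] at h1
    have h3 := hlow 16 (by norm_num) h16
    have e15 : (16 : ℝ) - 1 = 15 := by norm_num
    rw [e15] at h3
    linarith

end Helper85.CP
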