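import Pool.Agent.Helper69.CS.St
import Pool.Agent.Helper85.CP.M_CL
import Pool.Agent.Helper85.CP.M_CP
import Pool.Agent.Helper85.CP.M_GG
import Pool.Agent.Helper85.CP.M_HA
import Pool.Agent.Helper85.CP.M_K7
import Pool.Agent.Helper85.CP.M_KE
import Pool.Agent.Helper85.CP.M_KF
import Pool.Agent.Helper85.CP.M_MO
import Pool.Agent.Helper85.CP.M_RR
import Pool.Agent.Helper85.CP.M_SL
import Pool.Agent.Helper85.CP.M_YB

/-!
# MP_3dd6d4_an, project CP: the static part, assembled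
-/

set_option autoImplicit false

open MeasureTheory Set Filter Topology

noncomputable section

namespace Helper85.CP

open Helper69.CR

theorem K7_closed : StK7 := hK7 hKF hMO hGG (hHA hKF) hYB

theorem CP_closed : StCP := hCP K7_closed hCL

/-- the two definitions of `K_n²` agree. -/
theorem K2_eq (n : ℕ) : Helper69.CS.K2 n = K2 n := by
  unfold Helper69.CS.K2
  exact (hKE n).2.2

/-- `K_n² ≤ 4/5 ((30n+1)/31)²`, `n ≥ 7`. -/
theorem K2_le (n : ℕ) (hn : 7 ≤ n) :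
    Helper69.CS.K2 n ≤ 4 / 5 * ((30 * (n : ℝ) + 1) / 31) ^ 2 := by
  rw [K2_eq]
  exact K7_closed n hn

/-- the loss function of this project. -/
def lCP (p : ℝ) : ℝ := 4 / 5 / p ^ 2 + 14 / 5 / p ^ 3

/-- the excess function of this project. -/
def eCP (p : ℝ) : ℝ := ee (1 / p)

/-- the loss of the node PHI for `n ≥ 7`. -/
theorem loss_phi7 (n : ℕ) (p : ℝ) (hn : 7 ≤ n) (hp : 8 ≤ p) :
    Helper69.CS.K2 n ^ (1 - 2 / p) ≤ lCP p * Cn n (1 / p) ^ 2 := by
  have hp0 : 0 < p := by linarith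
  have h := CP_closed n (1 / p) hn (by positivity) (one_div_le_one_div_of_le (by norm_num) hp)
  rw [K2_eq]
  unfold lCP
  calc K2 n ^ (1 - 2 / p) = K2 n ^ (1 - 2 * (1 / p)) := by
        congr 1
        ring
    _ ≤ Cn n (1 / p) ^ 2 * (4 / 5 * (1 / p) ^ 2 + 14 / 5 * (1 / p) ^ 3) := h
    _ = (4 / 5 / p ^ 2 + 14 / 5 / p ^ 3) * Cn n (1 / p) ^ 2 := by
        field_simp

theorem small_phi7 (hPN : Helper69.CS.StPN) (n : ℕ) (hn : 7 ≤ n) : Helper69.CS.Small lCP n := by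
  obtain ⟨c, hc⟩ := hPN n (by omega)
  have h0 : 0 ≤ Helper69.CS.K2 n := by
    rw [K2_eq]
    exact K2_nonneg_CP n
  refine ⟨0, _, c, hc, Real.rpow_nonneg h0 _, fun p hp => ?_⟩
  simp only [sub_zero]
  exact loss_phi7 n p hn hp

/-- the three hypotheses of `StREC`. -/
theorem rec_numbers :
    (∀ p, 8 ≤ p → 1 + eCP (p / 2) + lCP p ≤ (1 + eCP p) ^ 2) ∧
    (∀ p, 4 < p → p < 8 → (2 - 8 / p) * (4 - (2 - 8 / p) ^ 2) / 6 * lCP 8 ≤ eCP p) ∧
    (∀ p, 4 ≤ p → 0 ≤ eCP p) := by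
  obtain ⟨h1, h2, h3⟩ := hRR
  refine ⟨fun p hp => ?_, fun p hp hp' => ?_, fun p hp => ?_⟩
  · have hp0 : 0 < p := by linarith
    have h := h1 (1 / p) (by positivity) (one_div_le_one_div_of_le (by norm_num) hp)
    unfold eCP lCP
    have e1 : 1 / (p / 2) = 2 * (1 / p) := by
      field_simp
    have e2 : 4 / 5 / p ^ 2 + 14 / 5 / p ^ 3 = 4 / 5 * (1 / p) ^ 2 + 14 / 5 * (1 / p) ^ 3 := by
      field_simp
    rw [e1, e2]
    exact h
  · have hp0 : 0 < p := by linarith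
    have h := h2 (1 / p) (one_div_le_one_div_of_le hp0 hp'.le)
      (one_div_le_one_div_of_le (by norm_num) hp.le)
    unfold eCP lCP
    have e1 : 2 - 8 / p = 2 - 8 * (1 / p) := by ring
    have e2 : (4 / 5 / 8 ^ 2 + 14 / 5 / 8 ^ 3 : ℝ) = 23 / 1280 := by norm_num
    rw [e1, e2]
    exact h
  · have hp0 : 0 < p := by linarith
    exact h3 (1 / p) (by positivity) (one_div_le_one_div_of_le (by norm_num) hp)

/-- the final constant. -/
theorem slack (n : ℕ) (p : ℝ) (hn : 3 ≤ n) (hp : 4 ≤ p) :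
    (1 + eCP p) * Cn n (1 / p) ≤ (n : ℝ) ^ (1 - 2 / p) * (p - 1) := by
  have hp0 : 0 < p := by linarith
  have h := hSL n (1 / p) hn (by positivity) (one_div_le_one_div_of_le (by norm_num) hp)
  unfold eCP
  have e1 : (1 - 1 / p) / (1 / p) = p - 1 := by
    field_simp
  have e2 : (1 - 2 * (1 / p) : ℝ) = 1 - 2 / p := by ring
  rw [e1, e2] at h
  linarith

end Helper85.CP
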